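import Pool.Agent.Helper13.KC.E2.Tabs
import Pool.Agent.Helper13.KC.Glue

set_option autoImplicit false
set_option maxRecDepth 100000

namespace KC.E2

theorem inv3_0_0 : rowsK QT3 (AT3 0 0) (T3base.rb 0) (T3base.nf 0) 0 (T3base.nf 0) = true := by
  decide +kernel

theorem inv3_0_1 : rowsK QT3 (AT3 0 1) (T3base.rb 0) (T3base.nf 0) 0 (T3base.nf 0) = true := by
  decide +kernel

theorem inv3_1_0 : rowsK QT3 (AT3 1 0) (T3base.rb 1) (T3base.nf 1) 0 (T3base.nf 1) = true := by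
  decide +kernel

theorem inv3_1_1 : rowsK QT3 (AT3 1 1) (T3base.rb 1) (T3base.nf 1) 0 (T3base.nf 1) = true := by
  decide +kernel

theorem inv3 : ∀ t < 2, ∀ j < 2, rowsK QT3 (AT3 t j) (T3base.rb t) (T3base.nf t) 0
    (T3base.nf t) = true := by
  intro t ht j hj
  have h1 : t = 0 ∨ t = 1 := by omega
  have h2 : j = 0 ∨ j = 1 := by omega
  rcases h1 with rfl | rfl <;> rcases h2 with rfl | rfl
  · exact inv3_0_0
  · exact inv3_0_1
  · exact inv3_1_0
  · exact inv3_1_1

theorem sym1 : ∀ f < T1base.nf 0, ∀ g < T1base.nf 0,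
    C1.qe 0 f g = C1.qe 0 g f := by decide +kernel

end KC.E2
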