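import Pool.Agent.Helper13.KC.E2.QT5
import Pool.Agent.Helper13.KC.Glue

set_option autoImplicit false
set_option maxRecDepth 100000

namespace KC.E2

theorem inv5_7_1_0 : rowsK QT5 AT5_7_1 1421 101 0 50 = true := by decide +kernel

theorem inv5_7_1_50 : rowsK QT5 AT5_7_1 1421 101 50 50 = true := by decide +kernel

theorem inv5_7_1_100 : rowsK QT5 AT5_7_1 1421 101 100 1 = true := by decide +kernel

theorem inv5_7_1 : ∀ f < 101, ∃ lo k, rowsK QT5 AT5_7_1 (T5base.rb 7) (T5base.nf 7) lo k = true ∧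
    lo ≤ f ∧ f < lo + k := by
  have e1 : T5base.rb 7 = 1421 := by decide +kernel
  have e2 : T5base.nf 7 = 101 := by decide +kernel
  rw [e1, e2]
  intro f hf
  by_cases h0 : f < 50
  · exact ⟨0, 50, inv5_7_1_0, by omega, by omega⟩
  by_cases h1 : f < 100
  · exact ⟨50, 50, inv5_7_1_50, by omega, by omega⟩
  exact ⟨100, 1, inv5_7_1_100, by omega, by omega⟩

end KC.E2
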