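import Pool.Agent.Helper13.KC.E2.QT5
import Pool.Agent.Helper13.KC.Glue

set_option autoImplicit false
set_option maxRecDepth 100000

namespace KC.E2

theorem inv5_9_1_0 : rowsK QT5 AT5_9_1 1617 94 0 50 = true := by decide +kernel

theorem inv5_9_1_50 : rowsK QT5 AT5_9_1 1617 94 50 44 = true := by decide +kernel

theorem inv5_9_1 : ∀ f < 94, ∃ lo k, rowsK QT5 AT5_9_1 (T5base.rb 9) (T5base.nf 9) lo k = true ∧
    lo ≤ f ∧ f < lo + k := by
  have e1 : T5base.rb 9 = 1617 := by decide +kernel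
  have e2 : T5base.nf 9 = 94 := by decide +kernel
  rw [e1, e2]
  intro f hf
  by_cases h0 : f < 50
  · exact ⟨0, 50, inv5_9_1_0, by omega, by omega⟩
  exact ⟨50, 44, inv5_9_1_50, by omega, by omega⟩

end KC.E2
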