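import Pool.Agent.Helper13.KC.E2.Inv5_0_0
import Pool.Agent.Helper13.KC.E2.Inv5_0_1
import Pool.Agent.Helper13.KC.E2.Inv5_1_0
import Pool.Agent.Helper13.KC.E2.Inv5_1_1
import Pool.Agent.Helper13.KC.E2.Inv5_2_0
import Pool.Agent.Helper13.KC.E2.Inv5_2_1
import Pool.Agent.Helper13.KC.E2.Inv5_3_0
import Pool.Agent.Helper13.KC.E2.Inv5_3_1
import Pool.Agent.Helper13.KC.E2.Inv5_4_0
import Pool.Agent.Helper13.KC.E2.Inv5_4_1
import Pool.Agent.Helper13.KC.E2.Inv5_5_0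
import Pool.Agent.Helper13.KC.E2.Inv5_6_0
import Pool.Agent.Helper13.KC.E2.Inv5_6_1
import Pool.Agent.Helper13.KC.E2.Inv5_7_0
import Pool.Agent.Helper13.KC.E2.Inv5_7_1
import Pool.Agent.Helper13.KC.E2.Inv5_8_0
import Pool.Agent.Helper13.KC.E2.Inv5_9_0
import Pool.Agent.Helper13.KC.E2.Inv5_9_1
import Pool.Agent.Helper13.KC.E2.Inv5_10_0
import Pool.Agent.Helper13.KC.E2.Inv5_10_1
import Pool.Agent.Helper13.KC.E2.Inv31

set_option autoImplicit false
set_option maxRecDepth 100000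

namespace KC.E2

theorem nf5_0 : T5base.nf 0 = 388 := by decide +kernel

theorem nf5_1 : T5base.nf 1 = 262 := by decide +kernel

theorem nf5_2 : T5base.nf 2 = 191 := by decide +kernel

theorem nf5_3 : T5base.nf 3 = 148 := by decide +kernel

theorem nf5_4 : T5base.nf 4 = 173 := by decide +kernel

theorem nf5_5 : T5base.nf 5 = 135 := by decide +kernel

theorem nf5_6 : T5base.nf 6 = 124 := by decide +kernel

theorem nf5_7 : T5base.nf 7 = 101 := by decide +kernel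

theorem nf5_8 : T5base.nf 8 = 95 := by decide +kernel

theorem nf5_9 : T5base.nf 9 = 94 := by decide +kernel

theorem nf5_10 : T5base.nf 10 = 72 := by decide +kernel

theorem good5 (hsym : ∀ t < 11, ∀ f < T5base.nf t, ∀ g < T5base.nf t,
    C5.qe t f g = C5.qe t g f) : C5.Good ag5 ac5 := by
  refine T5_good ?_ hsym
  intro t ht W hW
  have : t = 0 ∨ t = 1 ∨ t = 2 ∨ t = 3 ∨ t = 4 ∨ t = 5 ∨ t = 6 ∨ t = 7 ∨ t = 8 ∨ t = 9 ∨
    t = 10 := by omega
  rcases this with rfl | rfl | rfl | rfl | rfl | rfl | rfl | rfl | rfl | rfl | rfl <;>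
    simp only [ag5, List.getD_cons_zero, List.getD_cons_succ, List.mem_cons, List.not_mem_nil,
      or_false] at hW
  · rcases hW with rfl | rfl
    · exact ⟨AT5_0_0, ckA5_0_0, fun f hf => inv5_0_0 f (by simpa [nf5_0] using hf)⟩
    · exact ⟨AT5_0_1, ckA5_0_1, fun f hf => inv5_0_1 f (by simpa [nf5_0] using hf)⟩
  · rcases hW with rfl | rfl
    · exact ⟨AT5_1_0, ckA5_1_0, fun f hf => inv5_1_0 f (by simpa [nf5_1] using hf)⟩
    · exact ⟨AT5_1_1, ckA5_1_1, fun f hf => inv5_1_1 f (by simpa [nf5_1] using hf)⟩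
  · rcases hW with rfl | rfl
    · exact ⟨AT5_2_0, ckA5_2_0, fun f hf => inv5_2_0 f (by simpa [nf5_2] using hf)⟩
    · exact ⟨AT5_2_1, ckA5_2_1, fun f hf => inv5_2_1 f (by simpa [nf5_2] using hf)⟩
  · rcases hW with rfl | rfl
    · exact ⟨AT5_3_0, ckA5_3_0, fun f hf => inv5_3_0 f (by simpa [nf5_3] using hf)⟩
    · exact ⟨AT5_3_1, ckA5_3_1, fun f hf => inv5_3_1 f (by simpa [nf5_3] using hf)⟩
  · rcases hW with rfl | rfl
    · exact ⟨AT5_4_0, ckA5_4_0, fun f hf => inv5_4_0 f (by simpa [nf5_4] using hf)⟩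
    · exact ⟨AT5_4_1, ckA5_4_1, fun f hf => inv5_4_1 f (by simpa [nf5_4] using hf)⟩
  · subst hW
    exact ⟨AT5_5_0, ckA5_5_0, fun f hf => inv5_5_0 f (by simpa [nf5_5] using hf)⟩
  · rcases hW with rfl | rfl
    · exact ⟨AT5_6_0, ckA5_6_0, fun f hf => inv5_6_0 f (by simpa [nf5_6] using hf)⟩
    · exact ⟨AT5_6_1, ckA5_6_1, fun f hf => inv5_6_1 f (by simpa [nf5_6] using hf)⟩
  · rcases hW with rfl | rfl
    · exact ⟨AT5_7_0, ckA5_7_0, fun f hf => inv5_7_0 f (by simpa [nf5_7] using hf)⟩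
    · exact ⟨AT5_7_1, ckA5_7_1, fun f hf => inv5_7_1 f (by simpa [nf5_7] using hf)⟩
  · subst hW
    exact ⟨AT5_8_0, ckA5_8_0, fun f hf => inv5_8_0 f (by simpa [nf5_8] using hf)⟩
  · rcases hW with rfl | rfl
    · exact ⟨AT5_9_0, ckA5_9_0, fun f hf => inv5_9_0 f (by simpa [nf5_9] using hf)⟩
    · exact ⟨AT5_9_1, ckA5_9_1, fun f hf => inv5_9_1 f (by simpa [nf5_9] using hf)⟩
  · rcases hW with rfl | rfl
    · exact ⟨AT5_10_0, ckA5_10_0, fun f hf => inv5_10_0 f (by simpa [nf5_10] using hf)⟩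
    · exact ⟨AT5_10_1, ckA5_10_1, fun f hf => inv5_10_1 f (by simpa [nf5_10] using hf)⟩

theorem good3 (hsym : ∀ t < 2, ∀ f < T3base.nf t, ∀ g < T3base.nf t,
    C3.qe t f g = C3.qe t g f) : C3.Good3 AT3 := T3_good inv3 hsym

theorem good1 : C1.Good1 := T1_good sym1

end KC.E2
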