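import Pool.Agent.Helper13.KC.E2.QT5
import Pool.Agent.Helper13.KC.Glue

set_option autoImplicit false
set_option maxRecDepth 100000

namespace KC.E2

theorem inv5_0_0_0 : rowsK QT5 AT5_0_0 0 388 0 50 = true := by decide +kernel

theorem inv5_0_0_50 : rowsK QT5 AT5_0_0 0 388 50 50 = true := by decide +kernel

theorem inv5_0_0_100 : rowsK QT5 AT5_0_0 0 388 100 50 = true := by decide +kernel

theorem inv5_0_0_150 : rowsK QT5 AT5_0_0 0 388 150 50 = true := by decide +kernel

theorem inv5_0_0_200 : rowsK QT5 AT5_0_0 0 388 200 50 = true := by decide +kernel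

theorem inv5_0_0_250 : rowsK QT5 AT5_0_0 0 388 250 50 = true := by decide +kernel

theorem inv5_0_0_300 : rowsK QT5 AT5_0_0 0 388 300 50 = true := by decide +kernel

theorem inv5_0_0_350 : rowsK QT5 AT5_0_0 0 388 350 38 = true := by decide +kernel

theorem inv5_0_0 : ∀ f < 388, ∃ lo k, rowsK QT5 AT5_0_0 (T5base.rb 0) (T5base.nf 0) lo k = true ∧
    lo ≤ f ∧ f < lo + k := by
  have e1 : T5base.rb 0 = 0 := by decide +kernel
  have e2 : T5base.nf 0 = 388 := by decide +kernel
  rw [e1, e2]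
  intro f hf
  by_cases h0 : f < 50
  · exact ⟨0, 50, inv5_0_0_0, by omega, by omega⟩
  by_cases h1 : f < 100
  · exact ⟨50, 50, inv5_0_0_50, by omega, by omega⟩
  by_cases h2 : f < 150
  · exact ⟨100, 50, inv5_0_0_100, by omega, by omega⟩
  by_cases h3 : f < 200
  · exact ⟨150, 50, inv5_0_0_150, by omega, by omega⟩
  by_cases h4 : f < 250
  · exact ⟨200, 50, inv5_0_0_200, by omega, by omega⟩
  by_cases h5 : f < 300
  · exact ⟨250, 50, inv5_0_0_250, by omega, by omega⟩
  by_cases h6 : f < 350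
  · exact ⟨300, 50, inv5_0_0_300, by omega, by omega⟩
  exact ⟨350, 38, inv5_0_0_350, by omega, by omega⟩

end KC.E2
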