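set_option autoImplicit false
set_option maxRecDepth 100000

namespace KC.E2

def W1_0_r0 : Nat := 0x3d8ea0d00000000000000000518dce70000000000000000082947b9000000000000000009693e9b00000000000000000aa93433
def W1_0_r1 : Nat := 0x805e22c000000000000000007f9a67d000000000000000007f9e75b00000000000000000804da16000000000000000008000000
def W1_0_r2 : Nat := 0x7f97d6500000000000000000807542d00000000000000000806547f000000000000000008000000000000000000000008000000
def W1_0_r3 : Nat := 0x80015620000000000000000080088f8000000000000000008000000000000000000000008000000000000000000000008000000
def W1_0_r4 : Nat := 0x8008cd6000000000000000008000000000000000000000008000000000000000000000008000000000000000000000008000000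

end KC.E2
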