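import Pool.Agent.Helper13.KC.E2.Tabs
import Pool.Agent.Helper25.K4.Parts
import Pool.Agent.Helper13.KC.E2.W1_0_0

set_option autoImplicit false
set_option maxRecDepth 100000

namespace KC.E2

open KC

/-- The factor. -/
def W1_0 : List Nat :=
  [W1_0_r0, W1_0_r1, W1_0_r2, W1_0_r3, W1_0_r4]

/-- The parameters. -/
def pW1_0 : PP := ⟨96, 5, 262144, 140737488355328, 134217728, 26, 314577985, 48, 28⟩

/-- The rows. -/
noncomputable def qW1_0 (f : Nat) : Nat := C1.QT.get (Nat.add (C1.rb 0) f)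

theorem okW1_0 : pW1_0.ok (W1_0).length = true := by decide +kernel

theorem facW1_0 : facCk pW1_0 W1_0 = true := by decide +kernel

theorem bW1_0_0 : blkCk pW1_0 W1_0 qW1_0 (List.range' 0 5) = true := by decide +kernel

theorem sW1_0_0 : symCk 96 5 qW1_0 (List.range' 0 5) = true := by decide +kernel

theorem abW1_0 : ∀ f < 5, ∃ fs : List Nat, f ∈ fs ∧ blkCk pW1_0 W1_0 qW1_0 fs = true := by
  intro f hf
  exact ⟨_, List.mem_range'_1.2 ⟨by omega, by omega⟩, bW1_0_0⟩

theorem asW1_0 : ∀ f < 5, ∃ fs : List Nat, f ∈ fs ∧ symCk 96 5 qW1_0 fs = true := by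
  intro f hf
  exact ⟨_, List.mem_range'_1.2 ⟨by omega, by omega⟩, sW1_0_0⟩

theorem nfW1_0 : C1.nf 0 = 5 := by decide +kernel

theorem offW1_0 : C1.OFF = 140737488355328 := by decide +kernel

theorem psdW1_0 : PsdT C1 0 := by
  refine psdT_of_check0 (T := C1) (t := 0) (p := pW1_0) (rows := W1_0) rfl nfW1_0.symm offW1_0.symm okW1_0 facW1_0 ?_
  exact abW1_0

theorem symW1_0 : ∀ f < C1.nf 0, ∀ g < C1.nf 0, C1.qe 0 f g = C1.qe 0 g f := by
  refine symT_of_check (T := C1) (t := 0) ?_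
  rw [nfW1_0]
  exact asW1_0

end KC.E2
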