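import Pool.Agent.Helper13.KC.E2.Tabs
import Pool.Agent.Helper25.K4.Parts
import Pool.Agent.Helper13.KC.E2.W3_0_0

set_option autoImplicit false
set_option maxRecDepth 100000

namespace KC.E2

open KC

/-- The factor. -/
def W3_0 : List Nat :=
  [W3_0_r0, W3_0_r1, W3_0_r2, W3_0_r3, W3_0_r4, W3_0_r5, W3_0_r6, W3_0_r7, W3_0_r8, W3_0_r9, W3_0_r10, W3_0_r11, W3_0_r12, W3_0_r13, W3_0_r14, W3_0_r15, W3_0_r16, W3_0_r17, W3_0_r18, W3_0_r19, W3_0_r20, W3_0_r21, W3_0_r22, W3_0_r23, W3_0_r24, W3_0_r25, W3_0_r26, W3_0_r27, W3_0_r28, W3_0_r29, W3_0_r30, W3_0_r31, W3_0_r32, W3_0_r33, W3_0_r34, W3_0_r35, W3_0_r36, W3_0_r37, W3_0_r38, W3_0_r39, W3_0_r40, W3_0_r41, W3_0_r42, W3_0_r43, W3_0_r44, W3_0_r45, W3_0_r46, W3_0_r47, W3_0_r48, W3_0_r49, W3_0_r50, W3_0_r51, W3_0_r52, W3_0_r53, W3_0_r54, W3_0_r55, W3_0_r56, W3_0_r57, W3_0_r58, W3_0_r59, W3_0_r60, W3_0_r61, W3_0_r62, W3_0_r63, W3_0_r64, W3_0_r65, W3_0_r66,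 W3_0_r67, W3_0_r68, W3_0_r69, W3_0_r70, W3_0_r71, W3_0_r72, W3_0_r73, W3_0_r74, W3_0_r75, W3_0_r76, W3_0_r77, W3_0_r78, W3_0_r79, W3_0_r80, W3_0_r81, W3_0_r82, W3_0_r83, W3_0_r84, W3_0_r85, W3_0_r86, W3_0_r87, W3_0_r88, W3_0_r89, W3_0_r90, W3_0_r91, W3_0_r92, W3_0_r93, W3_0_r94]

/-- The parameters. -/
def pW3_0 : PP := ⟨96, 95, 8589934592, 140737488355328, 68719476736, 37, 10302454829216, 48, 37⟩

/-- The rows. -/
noncomputable def qW3_0 (f : Nat) : Nat := C3.QT.get (Nat.add (C3.rb 0) f)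

theorem okW3_0 : pW3_0.ok (W3_0).length = true := by decide +kernel

theorem facW3_0 : facCk pW3_0 W3_0 = true := by decide +kernel

theorem bW3_0_0 : blkCk pW3_0 W3_0 qW3_0 (List.range' 0 16) = true := by decide +kernel

theorem bW3_0_16 : blkCk pW3_0 W3_0 qW3_0 (List.range' 16 16) = true := by decide +kernel

theorem bW3_0_32 : blkCk pW3_0 W3_0 qW3_0 (List.range' 32 16) = true := by decide +kernel

theorem bW3_0_48 : blkCk pW3_0 W3_0 qW3_0 (List.range' 48 16) = true := by decide +kernel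

theorem bW3_0_64 : blkCk pW3_0 W3_0 qW3_0 (List.range' 64 16) = true := by decide +kernel

theorem bW3_0_80 : blkCk pW3_0 W3_0 qW3_0 (List.range' 80 15) = true := by decide +kernel

theorem sW3_0_0 : symCk 96 95 qW3_0 (List.range' 0 16) = true := by decide +kernel

theorem sW3_0_16 : symCk 96 95 qW3_0 (List.range' 16 16) = true := by decide +kernel

theorem sW3_0_32 : symCk 96 95 qW3_0 (List.range' 32 16) = true := by decide +kernel

theorem sW3_0_48 : symCk 96 95 qW3_0 (List.range' 48 16) = true := by decide +kernel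

theorem sW3_0_64 : symCk 96 95 qW3_0 (List.range' 64 16) = true := by decide +kernel

theorem sW3_0_80 : symCk 96 95 qW3_0 (List.range' 80 15) = true := by decide +kernel

theorem abW3_0 : ∀ f < 95, ∃ fs : List Nat, f ∈ fs ∧ blkCk pW3_0 W3_0 qW3_0 fs = true := by
  intro f hf
  by_cases h0 : f < 16
  · exact ⟨_, List.mem_range'_1.2 ⟨by omega, by omega⟩, bW3_0_0⟩
  by_cases h1 : f < 32
  · exact ⟨_, List.mem_range'_1.2 ⟨by omega, by omega⟩, bW3_0_16⟩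
  by_cases h2 : f < 48
  · exact ⟨_, List.mem_range'_1.2 ⟨by omega, by omega⟩, bW3_0_32⟩
  by_cases h3 : f < 64
  · exact ⟨_, List.mem_range'_1.2 ⟨by omega, by omega⟩, bW3_0_48⟩
  by_cases h4 : f < 80
  · exact ⟨_, List.mem_range'_1.2 ⟨by omega, by omega⟩, bW3_0_64⟩
  exact ⟨_, List.mem_range'_1.2 ⟨by omega, by omega⟩, bW3_0_80⟩

theorem asW3_0 : ∀ f < 95, ∃ fs : List Nat, f ∈ fs ∧ symCk 96 95 qW3_0 fs = true := by
  intro f hf
  by_cases h0 : f < 16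
  · exact ⟨_, List.mem_range'_1.2 ⟨by omega, by omega⟩, sW3_0_0⟩
  by_cases h1 : f < 32
  · exact ⟨_, List.mem_range'_1.2 ⟨by omega, by omega⟩, sW3_0_16⟩
  by_cases h2 : f < 48
  · exact ⟨_, List.mem_range'_1.2 ⟨by omega, by omega⟩, sW3_0_32⟩
  by_cases h3 : f < 64
  · exact ⟨_, List.mem_range'_1.2 ⟨by omega, by omega⟩, sW3_0_48⟩
  by_cases h4 : f < 80
  · exact ⟨_, List.mem_range'_1.2 ⟨by omega, by omega⟩, sW3_0_64⟩
  exact ⟨_, List.mem_range'_1.2 ⟨by omega, by omega⟩, sW3_0_80⟩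

theorem nfW3_0 : C3.nf 0 = 95 := by decide +kernel

theorem offW3_0 : C3.OFF = 140737488355328 := by decide +kernel

theorem psdW3_0 : PsdT C3 0 := by
  refine psdT_of_check0 (T := C3) (t := 0) (p := pW3_0) (rows := W3_0) rfl nfW3_0.symm offW3_0.symm okW3_0 facW3_0 ?_
  exact abW3_0

theorem symW3_0 : ∀ f < C3.nf 0, ∀ g < C3.nf 0, C3.qe 0 f g = C3.qe 0 g f := by
  refine symT_of_check (T := C3) (t := 0) ?_
  rw [nfW3_0]
  exact asW3_0

end KC.E2
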