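import Pool.Agent.Helper13.KC.E2.Tabs
import Pool.Agent.Helper25.K4.Parts
import Pool.Agent.Helper13.KC.E2.W5_1_0
import Pool.Agent.Helper13.KC.E2.W5_1_1
import Pool.Agent.Helper13.KC.E2.W5_1_2

set_option autoImplicit false
set_option maxRecDepth 100000

namespace KC.E2

open KC

/-- The factor. -/
def W5_1 : List Nat :=
  [W5_1_r0, W5_1_r1, W5_1_r2, W5_1_r3, W5_1_r4, W5_1_r5, W5_1_r6, W5_1_r7, W5_1_r8, W5_1_r9, W5_1_r10, W5_1_r11, W5_1_r12, W5_1_r13, W5_1_r14, W5_1_r15, W5_1_r16, W5_1_r17, W5_1_r18, W5_1_r19, W5_1_r20, W5_1_r21, W5_1_r22, W5_1_r23, W5_1_r24, W5_1_r25, W5_1_r26, W5_1_r27, W5_1_r28, W5_1_r29, W5_1_r30, W5_1_r31, W5_1_r32, W5_1_r33, W5_1_r34, W5_1_r35, W5_1_r36, W5_1_r37, W5_1_r38, W5_1_r39, W5_1_r40, W5_1_r41, W5_1_r42, W5_1_r43, W5_1_r44, W5_1_r45, W5_1_r46, W5_1_r47, W5_1_r48, W5_1_r49, W5_1_r50, W5_1_r51, W5_1_r52, W5_1_r53, W5_1_r54, W5_1_r55, W5_1_r56, W5_1_r57, W5_1_r58, W5_1_r59,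 W5_1_r60, W5_1_r61, W5_1_r62, W5_1_r63, W5_1_r64, W5_1_r65, W5_1_r66, W5_1_r67, W5_1_r68, W5_1_r69, W5_1_r70, W5_1_r71, W5_1_r72, W5_1_r73, W5_1_r74, W5_1_r75, W5_1_r76, W5_1_r77, W5_1_r78, W5_1_r79, W5_1_r80, W5_1_r81, W5_1_r82, W5_1_r83, W5_1_r84, W5_1_r85, W5_1_r86, W5_1_r87, W5_1_r88, W5_1_r89, W5_1_r90, W5_1_r91, W5_1_r92, W5_1_r93, W5_1_r94, W5_1_r95, W5_1_r96, W5_1_r97, W5_1_r98, W5_1_r99, W5_1_r100, W5_1_r101, W5_1_r102, W5_1_r103, W5_1_r104, W5_1_r105, W5_1_r106, W5_1_r107, W5_1_r108, W5_1_r109, W5_1_r110, W5_1_r111, W5_1_r112, W5_1_r113, W5_1_r114, W5_1_r115, W5_1_r116, W5_1_r117, W5_1_r118, W5_1_r119, W5_1_r120, W5_1_r121, W5_1_r122, W5_1_r123, W5_1_r124, W5_1_r125, W5_1_r126, W5_1_r127, W5_1_r128, W5_1_r129, W5_1_r130, W5_1_r131, W5_1_r132, W5_1_r133, W5_1_r134, W5_1_r135, W5_1_r136, W5_1_r137, W5_1_r138, W5_1_r139, W5_1_r140, W5_1_r141, W5_1_r142, W5_1_r143, W5_1_r144, W5_1_r145, W5_1_r146,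 W5_1_r147, W5_1_r148, W5_1_r149, W5_1_r150, W5_1_r151, W5_1_r152, W5_1_r153, W5_1_r154, W5_1_r155, W5_1_r156, W5_1_r157, W5_1_r158, W5_1_r159, W5_1_r160, W5_1_r161, W5_1_r162, W5_1_r163, W5_1_r164, W5_1_r165, W5_1_r166, W5_1_r167, W5_1_r168, W5_1_r169, W5_1_r170, W5_1_r171, W5_1_r172, W5_1_r173, W5_1_r174, W5_1_r175, W5_1_r176, W5_1_r177, W5_1_r178, W5_1_r179, W5_1_r180, W5_1_r181, W5_1_r182, W5_1_r183, W5_1_r184, W5_1_r185, W5_1_r186, W5_1_r187, W5_1_r188, W5_1_r189, W5_1_r190, W5_1_r191, W5_1_r192, W5_1_r193, W5_1_r194, W5_1_r195, W5_1_r196, W5_1_r197, W5_1_r198, W5_1_r199, W5_1_r200, W5_1_r201, W5_1_r202, W5_1_r203, W5_1_r204, W5_1_r205, W5_1_r206, W5_1_r207, W5_1_r208, W5_1_r209, W5_1_r210, W5_1_r211, W5_1_r212, W5_1_r213, W5_1_r214, W5_1_r215, W5_1_r216, W5_1_r217, W5_1_r218, W5_1_r219, W5_1_r220, W5_1_r221, W5_1_r222, W5_1_r223, W5_1_r224, W5_1_r225, W5_1_r226, W5_1_r227, W5_1_r228, W5_1_r229,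 W5_1_r230, W5_1_r231, W5_1_r232, W5_1_r233, W5_1_r234, W5_1_r235, W5_1_r236, W5_1_r237, W5_1_r238, W5_1_r239, W5_1_r240, W5_1_r241, W5_1_r242, W5_1_r243, W5_1_r244, W5_1_r245, W5_1_r246, W5_1_r247, W5_1_r248, W5_1_r249, W5_1_r250, W5_1_r251, W5_1_r252, W5_1_r253, W5_1_r254, W5_1_r255, W5_1_r256, W5_1_r257, W5_1_r258, W5_1_r259, W5_1_r260, W5_1_r261]

/-- The parameters. -/
def pW5_1 : PP := ⟨96, 262, 137438953472, 140737488355328, 274877906944, 40, 270207388401031, 48, 39⟩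

/-- The rows. -/
noncomputable def qW5_1 (f : Nat) : Nat := C5.QT.get (Nat.add (C5.rb 1) f)

theorem okW5_1 : pW5_1.ok (W5_1).length = true := by decide +kernel

theorem facW5_1 : facCk pW5_1 W5_1 = true := by decide +kernel

theorem bW5_1_0 : blkCk pW5_1 W5_1 qW5_1 (List.range' 0 16) = true := by decide +kernel

theorem bW5_1_16 : blkCk pW5_1 W5_1 qW5_1 (List.range' 16 16) = true := by decide +kernel

theorem bW5_1_32 : blkCk pW5_1 W5_1 qW5_1 (List.range' 32 16) = true := by decide +kernel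

theorem bW5_1_48 : blkCk pW5_1 W5_1 qW5_1 (List.range' 48 16) = true := by decide +kernel

theorem bW5_1_64 : blkCk pW5_1 W5_1 qW5_1 (List.range' 64 16) = true := by decide +kernel

theorem bW5_1_80 : blkCk pW5_1 W5_1 qW5_1 (List.range' 80 16) = true := by decide +kernel

theorem bW5_1_96 : blkCk pW5_1 W5_1 qW5_1 (List.range' 96 16) = true := by decide +kernel

theorem bW5_1_112 : blkCk pW5_1 W5_1 qW5_1 (List.range' 112 16) = true := by decide +kernel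

theorem bW5_1_128 : blkCk pW5_1 W5_1 qW5_1 (List.range' 128 16) = true := by decide +kernel

theorem bW5_1_144 : blkCk pW5_1 W5_1 qW5_1 (List.range' 144 16) = true := by decide +kernel

theorem bW5_1_160 : blkCk pW5_1 W5_1 qW5_1 (List.range' 160 16) = true := by decide +kernel

theorem bW5_1_176 : blkCk pW5_1 W5_1 qW5_1 (List.range' 176 16) = true := by decide +kernel

theorem bW5_1_192 : blkCk pW5_1 W5_1 qW5_1 (List.range' 192 16) = true := by decide +kernel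

theorem bW5_1_208 : blkCk pW5_1 W5_1 qW5_1 (List.range' 208 16) = true := by decide +kernel

theorem bW5_1_224 : blkCk pW5_1 W5_1 qW5_1 (List.range' 224 16) = true := by decide +kernel

theorem bW5_1_240 : blkCk pW5_1 W5_1 qW5_1 (List.range' 240 16) = true := by decide +kernel

theorem bW5_1_256 : blkCk pW5_1 W5_1 qW5_1 (List.range' 256 6) = true := by decide +kernel

theorem sW5_1_0 : symCk 96 262 qW5_1 (List.range' 0 16) = true := by decide +kernel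

theorem sW5_1_16 : symCk 96 262 qW5_1 (List.range' 16 16) = true := by decide +kernel

theorem sW5_1_32 : symCk 96 262 qW5_1 (List.range' 32 16) = true := by decide +kernel

theorem sW5_1_48 : symCk 96 262 qW5_1 (List.range' 48 16) = true := by decide +kernel

theorem sW5_1_64 : symCk 96 262 qW5_1 (List.range' 64 16) = true := by decide +kernel

theorem sW5_1_80 : symCk 96 262 qW5_1 (List.range' 80 16) = true := by decide +kernel

theorem sW5_1_96 : symCk 96 262 qW5_1 (List.range' 96 16) = true := by decide +kernel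

theorem sW5_1_112 : symCk 96 262 qW5_1 (List.range' 112 16) = true := by decide +kernel

theorem sW5_1_128 : symCk 96 262 qW5_1 (List.range' 128 16) = true := by decide +kernel

theorem sW5_1_144 : symCk 96 262 qW5_1 (List.range' 144 16) = true := by decide +kernel

theorem sW5_1_160 : symCk 96 262 qW5_1 (List.range' 160 16) = true := by decide +kernel

theorem sW5_1_176 : symCk 96 262 qW5_1 (List.range' 176 16) = true := by decide +kernel

theorem sW5_1_192 : symCk 96 262 qW5_1 (List.range' 192 16) = true := by decide +kernel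

theorem sW5_1_208 : symCk 96 262 qW5_1 (List.range' 208 16) = true := by decide +kernel

theorem sW5_1_224 : symCk 96 262 qW5_1 (List.range' 224 16) = true := by decide +kernel

theorem sW5_1_240 : symCk 96 262 qW5_1 (List.range' 240 16) = true := by decide +kernel

theorem sW5_1_256 : symCk 96 262 qW5_1 (List.range' 256 6) = true := by decide +kernel

theorem abW5_1 : ∀ f < 262, ∃ fs : List Nat, f ∈ fs ∧ blkCk pW5_1 W5_1 qW5_1 fs = true := by
  intro f hf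
  by_cases h0 : f < 16
  · exact ⟨_, List.mem_range'_1.2 ⟨by omega, by omega⟩, bW5_1_0⟩
  by_cases h1 : f < 32
  · exact ⟨_, List.mem_range'_1.2 ⟨by omega, by omega⟩, bW5_1_16⟩
  by_cases h2 : f < 48
  · exact ⟨_, List.mem_range'_1.2 ⟨by omega, by omega⟩, bW5_1_32⟩
  by_cases h3 : f < 64
  · exact ⟨_, List.mem_range'_1.2 ⟨by omega, by omega⟩, bW5_1_48⟩
  by_cases h4 : f < 80
  · exact ⟨_, List.mem_range'_1.2 ⟨by omega, by omega⟩, bW5_1_64⟩
  by_cases h5 : f < 96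
  · exact ⟨_, List.mem_range'_1.2 ⟨by omega, by omega⟩, bW5_1_80⟩
  by_cases h6 : f < 112
  · exact ⟨_, List.mem_range'_1.2 ⟨by omega, by omega⟩, bW5_1_96⟩
  by_cases h7 : f < 128
  · exact ⟨_, List.mem_range'_1.2 ⟨by omega, by omega⟩, bW5_1_112⟩
  by_cases h8 : f < 144
  · exact ⟨_, List.mem_range'_1.2 ⟨by omega, by omega⟩, bW5_1_128⟩
  by_cases h9 : f < 160
  · exact ⟨_, List.mem_range'_1.2 ⟨by omega, by omega⟩, bW5_1_144⟩
  by_cases h10 : f < 176
  · exact ⟨_, List.mem_range'_1.2 ⟨by omega, by omega⟩, bW5_1_160⟩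
  by_cases h11 : f < 192
  · exact ⟨_, List.mem_range'_1.2 ⟨by omega, by omega⟩, bW5_1_176⟩
  by_cases h12 : f < 208
  · exact ⟨_, List.mem_range'_1.2 ⟨by omega, by omega⟩, bW5_1_192⟩
  by_cases h13 : f < 224
  · exact ⟨_, List.mem_range'_1.2 ⟨by omega, by omega⟩, bW5_1_208⟩
  by_cases h14 : f < 240
  · exact ⟨_, List.mem_range'_1.2 ⟨by omega, by omega⟩, bW5_1_224⟩
  by_cases h15 : f < 256
  · exact ⟨_, List.mem_range'_1.2 ⟨by omega, by omega⟩, bW5_1_240⟩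
  exact ⟨_, List.mem_range'_1.2 ⟨by omega, by omega⟩, bW5_1_256⟩

theorem asW5_1 : ∀ f < 262, ∃ fs : List Nat, f ∈ fs ∧ symCk 96 262 qW5_1 fs = true := by
  intro f hf
  by_cases h0 : f < 16
  · exact ⟨_, List.mem_range'_1.2 ⟨by omega, by omega⟩, sW5_1_0⟩
  by_cases h1 : f < 32
  · exact ⟨_, List.mem_range'_1.2 ⟨by omega, by omega⟩, sW5_1_16⟩
  by_cases h2 : f < 48
  · exact ⟨_, List.mem_range'_1.2 ⟨by omega, by omega⟩, sW5_1_32⟩
  by_cases h3 : f < 64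
  · exact ⟨_, List.mem_range'_1.2 ⟨by omega, by omega⟩, sW5_1_48⟩
  by_cases h4 : f < 80
  · exact ⟨_, List.mem_range'_1.2 ⟨by omega, by omega⟩, sW5_1_64⟩
  by_cases h5 : f < 96
  · exact ⟨_, List.mem_range'_1.2 ⟨by omega, by omega⟩, sW5_1_80⟩
  by_cases h6 : f < 112
  · exact ⟨_, List.mem_range'_1.2 ⟨by omega, by omega⟩, sW5_1_96⟩
  by_cases h7 : f < 128
  · exact ⟨_, List.mem_range'_1.2 ⟨by omega, by omega⟩, sW5_1_112⟩
  by_cases h8 : f < 144
  · exact ⟨_, List.mem_range'_1.2 ⟨by omega, by omega⟩, sW5_1_128⟩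
  by_cases h9 : f < 160
  · exact ⟨_, List.mem_range'_1.2 ⟨by omega, by omega⟩, sW5_1_144⟩
  by_cases h10 : f < 176
  · exact ⟨_, List.mem_range'_1.2 ⟨by omega, by omega⟩, sW5_1_160⟩
  by_cases h11 : f < 192
  · exact ⟨_, List.mem_range'_1.2 ⟨by omega, by omega⟩, sW5_1_176⟩
  by_cases h12 : f < 208
  · exact ⟨_, List.mem_range'_1.2 ⟨by omega, by omega⟩, sW5_1_192⟩
  by_cases h13 : f < 224
  · exact ⟨_, List.mem_range'_1.2 ⟨by omega, by omega⟩, sW5_1_208⟩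
  by_cases h14 : f < 240
  · exact ⟨_, List.mem_range'_1.2 ⟨by omega, by omega⟩, sW5_1_224⟩
  by_cases h15 : f < 256
  · exact ⟨_, List.mem_range'_1.2 ⟨by omega, by omega⟩, sW5_1_240⟩
  exact ⟨_, List.mem_range'_1.2 ⟨by omega, by omega⟩, sW5_1_256⟩

theorem nfW5_1 : C5.nf 1 = 262 := by decide +kernel

theorem offW5_1 : C5.OFF = 140737488355328 := by decide +kernel

theorem psdW5_1 : PsdT C5 1 := by
  refine psdT_of_check0 (T := C5) (t := 1) (p := pW5_1) (rows := W5_1) rfl nfW5_1.symm offW5_1.symm okW5_1 facW5_1 ?_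
  exact abW5_1

theorem symW5_1 : ∀ f < C5.nf 1, ∀ g < C5.nf 1, C5.qe 1 f g = C5.qe 1 g f := by
  refine symT_of_check (T := C5) (t := 1) ?_
  rw [nfW5_1]
  exact asW5_1

end KC.E2
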