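import Pool.Agent.Helper13.KC.E2.Tabs
import Pool.Agent.Helper25.K4.Parts
import Pool.Agent.Helper13.KC.E2.W5_10_0

set_option autoImplicit false
set_option maxRecDepth 100000

namespace KC.E2

open KC

/-- The factor. -/
def W5_10 : List Nat :=
  [W5_10_r0, W5_10_r1, W5_10_r2, W5_10_r3, W5_10_r4, W5_10_r5, W5_10_r6, W5_10_r7, W5_10_r8, W5_10_r9, W5_10_r10, W5_10_r11, W5_10_r12, W5_10_r13, W5_10_r14, W5_10_r15, W5_10_r16, W5_10_r17, W5_10_r18, W5_10_r19, W5_10_r20, W5_10_r21, W5_10_r22, W5_10_r23, W5_10_r24, W5_10_r25, W5_10_r26, W5_10_r27, W5_10_r28, W5_10_r29, W5_10_r30, W5_10_r31, W5_10_r32, W5_10_r33, W5_10_r34, W5_10_r35, W5_10_r36, W5_10_r37, W5_10_r38, W5_10_r39, W5_10_r40, W5_10_r41, W5_10_r42, W5_10_r43, W5_10_r44, W5_10_r45, W5_10_r46, W5_10_r47, W5_10_r48, W5_10_r49, W5_10_r50, W5_10_r51, W5_10_r52, W5_10_r53, W5_10_r54, W5_10_r55, W5_10_r56, W5_10_r57, W5_10_r58, W5_10_r59, W5_10_r60, W5_10_r61, W5_10_r62, W5_10_r63,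 W5_10_r64, W5_10_r65, W5_10_r66, W5_10_r67, W5_10_r68, W5_10_r69, W5_10_r70, W5_10_r71]

/-- The parameters. -/
def pW5_10 : PP := ⟨96, 72, 8589934592, 140737488355328, 68719476736, 38, 13792271129786, 48, 37⟩

/-- The rows. -/
noncomputable def qW5_10 (f : Nat) : Nat := C5.QT.get (Nat.add (C5.rb 10) f)

theorem okW5_10 : pW5_10.ok (W5_10).length = true := by decide +kernel

theorem facW5_10 : facCk pW5_10 W5_10 = true := by decide +kernel

theorem bW5_10_0 : blkCk pW5_10 W5_10 qW5_10 (List.range' 0 16) = true := by decide +kernel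

theorem bW5_10_16 : blkCk pW5_10 W5_10 qW5_10 (List.range' 16 16) = true := by decide +kernel

theorem bW5_10_32 : blkCk pW5_10 W5_10 qW5_10 (List.range' 32 16) = true := by decide +kernel

theorem bW5_10_48 : blkCk pW5_10 W5_10 qW5_10 (List.range' 48 16) = true := by decide +kernel

theorem bW5_10_64 : blkCk pW5_10 W5_10 qW5_10 (List.range' 64 8) = true := by decide +kernel

theorem sW5_10_0 : symCk 96 72 qW5_10 (List.range' 0 16) = true := by decide +kernel

theorem sW5_10_16 : symCk 96 72 qW5_10 (List.range' 16 16) = true := by decide +kernel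

theorem sW5_10_32 : symCk 96 72 qW5_10 (List.range' 32 16) = true := by decide +kernel

theorem sW5_10_48 : symCk 96 72 qW5_10 (List.range' 48 16) = true := by decide +kernel

theorem sW5_10_64 : symCk 96 72 qW5_10 (List.range' 64 8) = true := by decide +kernel

theorem abW5_10 : ∀ f < 72, ∃ fs : List Nat, f ∈ fs ∧ blkCk pW5_10 W5_10 qW5_10 fs = true := by
  intro f hf
  by_cases h0 : f < 16
  · exact ⟨_, List.mem_range'_1.2 ⟨by omega, by omega⟩, bW5_10_0⟩
  by_cases h1 : f < 32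
  · exact ⟨_, List.mem_range'_1.2 ⟨by omega, by omega⟩, bW5_10_16⟩
  by_cases h2 : f < 48
  · exact ⟨_, List.mem_range'_1.2 ⟨by omega, by omega⟩, bW5_10_32⟩
  by_cases h3 : f < 64
  · exact ⟨_, List.mem_range'_1.2 ⟨by omega, by omega⟩, bW5_10_48⟩
  exact ⟨_, List.mem_range'_1.2 ⟨by omega, by omega⟩, bW5_10_64⟩

theorem asW5_10 : ∀ f < 72, ∃ fs : List Nat, f ∈ fs ∧ symCk 96 72 qW5_10 fs = true := by
  intro f hf
  by_cases h0 : f < 16
  · exact ⟨_, List.mem_range'_1.2 ⟨by omega, by omega⟩, sW5_10_0⟩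
  by_cases h1 : f < 32
  · exact ⟨_, List.mem_range'_1.2 ⟨by omega, by omega⟩, sW5_10_16⟩
  by_cases h2 : f < 48
  · exact ⟨_, List.mem_range'_1.2 ⟨by omega, by omega⟩, sW5_10_32⟩
  by_cases h3 : f < 64
  · exact ⟨_, List.mem_range'_1.2 ⟨by omega, by omega⟩, sW5_10_48⟩
  exact ⟨_, List.mem_range'_1.2 ⟨by omega, by omega⟩, sW5_10_64⟩

theorem nfW5_10 : C5.nf 10 = 72 := by decide +kernel

theorem offW5_10 : C5.OFF = 140737488355328 := by decide +kernel

theorem psdW5_10 : PsdT C5 10 := by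
  refine psdT_of_check0 (T := C5) (t := 10) (p := pW5_10) (rows := W5_10) rfl nfW5_10.symm offW5_10.symm okW5_10 facW5_10 ?_
  exact abW5_10

theorem symW5_10 : ∀ f < C5.nf 10, ∀ g < C5.nf 10, C5.qe 10 f g = C5.qe 10 g f := by
  refine symT_of_check (T := C5) (t := 10) ?_
  rw [nfW5_10]
  exact asW5_10

end KC.E2
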