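import Pool.Agent.Helper13.KC.E2.Tabs
import Pool.Agent.Helper25.K4.Parts
import Pool.Agent.Helper13.KC.E2.W5_2_0
import Pool.Agent.Helper13.KC.E2.W5_2_1

set_option autoImplicit false
set_option maxRecDepth 100000

namespace KC.E2

open KC

/-- The factor. -/
def W5_2 : List Nat :=
  [W5_2_r0, W5_2_r1, W5_2_r2, W5_2_r3, W5_2_r4, W5_2_r5, W5_2_r6, W5_2_r7, W5_2_r8, W5_2_r9, W5_2_r10, W5_2_r11, W5_2_r12, W5_2_r13, W5_2_r14, W5_2_r15, W5_2_r16, W5_2_r17, W5_2_r18, W5_2_r19, W5_2_r20, W5_2_r21, W5_2_r22, W5_2_r23, W5_2_r24, W5_2_r25, W5_2_r26, W5_2_r27, W5_2_r28, W5_2_r29, W5_2_r30, W5_2_r31, W5_2_r32, W5_2_r33, W5_2_r34, W5_2_r35, W5_2_r36, W5_2_r37, W5_2_r38, W5_2_r39, W5_2_r40, W5_2_r41, W5_2_r42, W5_2_r43, W5_2_r44, W5_2_r45, W5_2_r46, W5_2_r47, W5_2_r48, W5_2_r49, W5_2_r50, W5_2_r51, W5_2_r52, W5_2_r53, W5_2_r54, W5_2_r55, W5_2_r56, W5_2_r57, W5_2_r58, W5_2_r59, W5_2_r60, W5_2_r61, W5_2_r62,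 W5_2_r63, W5_2_r64, W5_2_r65, W5_2_r66, W5_2_r67, W5_2_r68, W5_2_r69, W5_2_r70, W5_2_r71, W5_2_r72, W5_2_r73, W5_2_r74, W5_2_r75, W5_2_r76, W5_2_r77, W5_2_r78, W5_2_r79, W5_2_r80, W5_2_r81, W5_2_r82, W5_2_r83, W5_2_r84, W5_2_r85, W5_2_r86, W5_2_r87, W5_2_r88, W5_2_r89, W5_2_r90, W5_2_r91, W5_2_r92, W5_2_r93, W5_2_r94, W5_2_r95, W5_2_r96, W5_2_r97, W5_2_r98, W5_2_r99, W5_2_r100, W5_2_r101, W5_2_r102, W5_2_r103, W5_2_r104, W5_2_r105, W5_2_r106, W5_2_r107, W5_2_r108, W5_2_r109, W5_2_r110, W5_2_r111, W5_2_r112, W5_2_r113, W5_2_r114, W5_2_r115, W5_2_r116, W5_2_r117, W5_2_r118, W5_2_r119, W5_2_r120, W5_2_r121, W5_2_r122, W5_2_r123, W5_2_r124, W5_2_r125, W5_2_r126, W5_2_r127, W5_2_r128, W5_2_r129, W5_2_r130, W5_2_r131, W5_2_r132, W5_2_r133, W5_2_r134, W5_2_r135, W5_2_r136, W5_2_r137, W5_2_r138, W5_2_r139, W5_2_r140, W5_2_r141, W5_2_r142, W5_2_r143, W5_2_r144, W5_2_r145, W5_2_r146, W5_2_r147, W5_2_r148,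 W5_2_r149, W5_2_r150, W5_2_r151, W5_2_r152, W5_2_r153, W5_2_r154, W5_2_r155, W5_2_r156, W5_2_r157, W5_2_r158, W5_2_r159, W5_2_r160, W5_2_r161, W5_2_r162, W5_2_r163, W5_2_r164, W5_2_r165, W5_2_r166, W5_2_r167, W5_2_r168, W5_2_r169, W5_2_r170, W5_2_r171, W5_2_r172, W5_2_r173, W5_2_r174, W5_2_r175, W5_2_r176, W5_2_r177, W5_2_r178, W5_2_r179, W5_2_r180, W5_2_r181, W5_2_r182, W5_2_r183, W5_2_r184, W5_2_r185, W5_2_r186, W5_2_r187, W5_2_r188, W5_2_r189, W5_2_r190]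

/-- The parameters. -/
def pW5_2 : PP := ⟨96, 191, 34359738368, 140737488355328, 274877906944, 39, 94512704312801, 48, 39⟩

/-- The rows. -/
noncomputable def qW5_2 (f : Nat) : Nat := C5.QT.get (Nat.add (C5.rb 2) f)

theorem okW5_2 : pW5_2.ok (W5_2).length = true := by decide +kernel

theorem facW5_2 : facCk pW5_2 W5_2 = true := by decide +kernel

theorem bW5_2_0 : blkCk pW5_2 W5_2 qW5_2 (List.range' 0 16) = true := by decide +kernel

theorem bW5_2_16 : blkCk pW5_2 W5_2 qW5_2 (List.range' 16 16) = true := by decide +kernel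

theorem bW5_2_32 : blkCk pW5_2 W5_2 qW5_2 (List.range' 32 16) = true := by decide +kernel

theorem bW5_2_48 : blkCk pW5_2 W5_2 qW5_2 (List.range' 48 16) = true := by decide +kernel

theorem bW5_2_64 : blkCk pW5_2 W5_2 qW5_2 (List.range' 64 16) = true := by decide +kernel

theorem bW5_2_80 : blkCk pW5_2 W5_2 qW5_2 (List.range' 80 16) = true := by decide +kernel

theorem bW5_2_96 : blkCk pW5_2 W5_2 qW5_2 (List.range' 96 16) = true := by decide +kernel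

theorem bW5_2_112 : blkCk pW5_2 W5_2 qW5_2 (List.range' 112 16) = true := by decide +kernel

theorem bW5_2_128 : blkCk pW5_2 W5_2 qW5_2 (List.range' 128 16) = true := by decide +kernel

theorem bW5_2_144 : blkCk pW5_2 W5_2 qW5_2 (List.range' 144 16) = true := by decide +kernel

theorem bW5_2_160 : blkCk pW5_2 W5_2 qW5_2 (List.range' 160 16) = true := by decide +kernel

theorem bW5_2_176 : blkCk pW5_2 W5_2 qW5_2 (List.range' 176 15) = true := by decide +kernel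

theorem sW5_2_0 : symCk 96 191 qW5_2 (List.range' 0 16) = true := by decide +kernel

theorem sW5_2_16 : symCk 96 191 qW5_2 (List.range' 16 16) = true := by decide +kernel

theorem sW5_2_32 : symCk 96 191 qW5_2 (List.range' 32 16) = true := by decide +kernel

theorem sW5_2_48 : symCk 96 191 qW5_2 (List.range' 48 16) = true := by decide +kernel

theorem sW5_2_64 : symCk 96 191 qW5_2 (List.range' 64 16) = true := by decide +kernel

theorem sW5_2_80 : symCk 96 191 qW5_2 (List.range' 80 16) = true := by decide +kernel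

theorem sW5_2_96 : symCk 96 191 qW5_2 (List.range' 96 16) = true := by decide +kernel

theorem sW5_2_112 : symCk 96 191 qW5_2 (List.range' 112 16) = true := by decide +kernel

theorem sW5_2_128 : symCk 96 191 qW5_2 (List.range' 128 16) = true := by decide +kernel

theorem sW5_2_144 : symCk 96 191 qW5_2 (List.range' 144 16) = true := by decide +kernel

theorem sW5_2_160 : symCk 96 191 qW5_2 (List.range' 160 16) = true := by decide +kernel

theorem sW5_2_176 : symCk 96 191 qW5_2 (List.range' 176 15) = true := by decide +kernel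

theorem abW5_2 : ∀ f < 191, ∃ fs : List Nat, f ∈ fs ∧ blkCk pW5_2 W5_2 qW5_2 fs = true := by
  intro f hf
  by_cases h0 : f < 16
  · exact ⟨_, List.mem_range'_1.2 ⟨by omega, by omega⟩, bW5_2_0⟩
  by_cases h1 : f < 32
  · exact ⟨_, List.mem_range'_1.2 ⟨by omega, by omega⟩, bW5_2_16⟩
  by_cases h2 : f < 48
  · exact ⟨_, List.mem_range'_1.2 ⟨by omega, by omega⟩, bW5_2_32⟩
  by_cases h3 : f < 64
  · exact ⟨_, List.mem_range'_1.2 ⟨by omega, by omega⟩, bW5_2_48⟩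
  by_cases h4 : f < 80
  · exact ⟨_, List.mem_range'_1.2 ⟨by omega, by omega⟩, bW5_2_64⟩
  by_cases h5 : f < 96
  · exact ⟨_, List.mem_range'_1.2 ⟨by omega, by omega⟩, bW5_2_80⟩
  by_cases h6 : f < 112
  · exact ⟨_, List.mem_range'_1.2 ⟨by omega, by omega⟩, bW5_2_96⟩
  by_cases h7 : f < 128
  · exact ⟨_, List.mem_range'_1.2 ⟨by omega, by omega⟩, bW5_2_112⟩
  by_cases h8 : f < 144
  · exact ⟨_, List.mem_range'_1.2 ⟨by omega, by omega⟩, bW5_2_128⟩
  by_cases h9 : f < 160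
  · exact ⟨_, List.mem_range'_1.2 ⟨by omega, by omega⟩, bW5_2_144⟩
  by_cases h10 : f < 176
  · exact ⟨_, List.mem_range'_1.2 ⟨by omega, by omega⟩, bW5_2_160⟩
  exact ⟨_, List.mem_range'_1.2 ⟨by omega, by omega⟩, bW5_2_176⟩

theorem asW5_2 : ∀ f < 191, ∃ fs : List Nat, f ∈ fs ∧ symCk 96 191 qW5_2 fs = true := by
  intro f hf
  by_cases h0 : f < 16
  · exact ⟨_, List.mem_range'_1.2 ⟨by omega, by omega⟩, sW5_2_0⟩
  by_cases h1 : f < 32
  · exact ⟨_, List.mem_range'_1.2 ⟨by omega, by omega⟩, sW5_2_16⟩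
  by_cases h2 : f < 48
  · exact ⟨_, List.mem_range'_1.2 ⟨by omega, by omega⟩, sW5_2_32⟩
  by_cases h3 : f < 64
  · exact ⟨_, List.mem_range'_1.2 ⟨by omega, by omega⟩, sW5_2_48⟩
  by_cases h4 : f < 80
  · exact ⟨_, List.mem_range'_1.2 ⟨by omega, by omega⟩, sW5_2_64⟩
  by_cases h5 : f < 96
  · exact ⟨_, List.mem_range'_1.2 ⟨by omega, by omega⟩, sW5_2_80⟩
  by_cases h6 : f < 112
  · exact ⟨_, List.mem_range'_1.2 ⟨by omega, by omega⟩, sW5_2_96⟩
  by_cases h7 : f < 128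
  · exact ⟨_, List.mem_range'_1.2 ⟨by omega, by omega⟩, sW5_2_112⟩
  by_cases h8 : f < 144
  · exact ⟨_, List.mem_range'_1.2 ⟨by omega, by omega⟩, sW5_2_128⟩
  by_cases h9 : f < 160
  · exact ⟨_, List.mem_range'_1.2 ⟨by omega, by omega⟩, sW5_2_144⟩
  by_cases h10 : f < 176
  · exact ⟨_, List.mem_range'_1.2 ⟨by omega, by omega⟩, sW5_2_160⟩
  exact ⟨_, List.mem_range'_1.2 ⟨by omega, by omega⟩, sW5_2_176⟩

theorem nfW5_2 : C5.nf 2 = 191 := by decide +kernel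

theorem offW5_2 : C5.OFF = 140737488355328 := by decide +kernel

theorem psdW5_2 : PsdT C5 2 := by
  refine psdT_of_check0 (T := C5) (t := 2) (p := pW5_2) (rows := W5_2) rfl nfW5_2.symm offW5_2.symm okW5_2 facW5_2 ?_
  exact abW5_2

theorem symW5_2 : ∀ f < C5.nf 2, ∀ g < C5.nf 2, C5.qe 2 f g = C5.qe 2 g f := by
  refine symT_of_check (T := C5) (t := 2) ?_
  rw [nfW5_2]
  exact asW5_2

end KC.E2
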