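import Pool.Agent.Helper13.KC.E2.Tabs
import Pool.Agent.Helper25.K4.Parts
import Pool.Agent.Helper13.KC.E2.W5_3_0
import Pool.Agent.Helper13.KC.E2.W5_3_1

set_option autoImplicit false
set_option maxRecDepth 100000

namespace KC.E2

open KC

/-- The factor. -/
def W5_3 : List Nat :=
  [W5_3_r0, W5_3_r1, W5_3_r2, W5_3_r3, W5_3_r4, W5_3_r5, W5_3_r6, W5_3_r7, W5_3_r8, W5_3_r9, W5_3_r10, W5_3_r11, W5_3_r12, W5_3_r13, W5_3_r14, W5_3_r15, W5_3_r16, W5_3_r17, W5_3_r18, W5_3_r19, W5_3_r20, W5_3_r21, W5_3_r22, W5_3_r23, W5_3_r24, W5_3_r25, W5_3_r26, W5_3_r27, W5_3_r28, W5_3_r29, W5_3_r30, W5_3_r31, W5_3_r32, W5_3_r33, W5_3_r34, W5_3_r35, W5_3_r36, W5_3_r37, W5_3_r38, W5_3_r39, W5_3_r40, W5_3_r41, W5_3_r42, W5_3_r43, W5_3_r44, W5_3_r45, W5_3_r46, W5_3_r47, W5_3_r48, W5_3_r49, W5_3_r50, W5_3_r51, W5_3_r52, W5_3_r53, W5_3_r54, W5_3_r55, W5_3_r56, W5_3_r57, W5_3_r58, W5_3_r59, W5_3_r60, W5_3_r61, W5_3_r62,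 W5_3_r63, W5_3_r64, W5_3_r65, W5_3_r66, W5_3_r67, W5_3_r68, W5_3_r69, W5_3_r70, W5_3_r71, W5_3_r72, W5_3_r73, W5_3_r74, W5_3_r75, W5_3_r76, W5_3_r77, W5_3_r78, W5_3_r79, W5_3_r80, W5_3_r81, W5_3_r82, W5_3_r83, W5_3_r84, W5_3_r85, W5_3_r86, W5_3_r87, W5_3_r88, W5_3_r89, W5_3_r90, W5_3_r91, W5_3_r92, W5_3_r93, W5_3_r94, W5_3_r95, W5_3_r96, W5_3_r97, W5_3_r98, W5_3_r99, W5_3_r100, W5_3_r101, W5_3_r102, W5_3_r103, W5_3_r104, W5_3_r105, W5_3_r106, W5_3_r107, W5_3_r108, W5_3_r109, W5_3_r110, W5_3_r111, W5_3_r112, W5_3_r113, W5_3_r114, W5_3_r115, W5_3_r116, W5_3_r117, W5_3_r118, W5_3_r119, W5_3_r120, W5_3_r121, W5_3_r122, W5_3_r123, W5_3_r124, W5_3_r125, W5_3_r126, W5_3_r127, W5_3_r128, W5_3_r129, W5_3_r130, W5_3_r131, W5_3_r132, W5_3_r133, W5_3_r134, W5_3_r135, W5_3_r136, W5_3_r137, W5_3_r138, W5_3_r139, W5_3_r140, W5_3_r141, W5_3_r142, W5_3_r143, W5_3_r144, W5_3_r145, W5_3_r146, W5_3_r147]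

/-- The parameters. -/
def pW5_3 : PP := ⟨96, 148, 8589934592, 140737488355328, 68719476736, 37, 11399806737899, 48, 37⟩

/-- The rows. -/
noncomputable def qW5_3 (f : Nat) : Nat := C5.QT.get (Nat.add (C5.rb 3) f)

theorem okW5_3 : pW5_3.ok (W5_3).length = true := by decide +kernel

theorem facW5_3 : facCk pW5_3 W5_3 = true := by decide +kernel

theorem bW5_3_0 : blkCk pW5_3 W5_3 qW5_3 (List.range' 0 16) = true := by decide +kernel

theorem bW5_3_16 : blkCk pW5_3 W5_3 qW5_3 (List.range' 16 16) = true := by decide +kernel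

theorem bW5_3_32 : blkCk pW5_3 W5_3 qW5_3 (List.range' 32 16) = true := by decide +kernel

theorem bW5_3_48 : blkCk pW5_3 W5_3 qW5_3 (List.range' 48 16) = true := by decide +kernel

theorem bW5_3_64 : blkCk pW5_3 W5_3 qW5_3 (List.range' 64 16) = true := by decide +kernel

theorem bW5_3_80 : blkCk pW5_3 W5_3 qW5_3 (List.range' 80 16) = true := by decide +kernel

theorem bW5_3_96 : blkCk pW5_3 W5_3 qW5_3 (List.range' 96 16) = true := by decide +kernel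

theorem bW5_3_112 : blkCk pW5_3 W5_3 qW5_3 (List.range' 112 16) = true := by decide +kernel

theorem bW5_3_128 : blkCk pW5_3 W5_3 qW5_3 (List.range' 128 16) = true := by decide +kernel

theorem bW5_3_144 : blkCk pW5_3 W5_3 qW5_3 (List.range' 144 4) = true := by decide +kernel

theorem sW5_3_0 : symCk 96 148 qW5_3 (List.range' 0 16) = true := by decide +kernel

theorem sW5_3_16 : symCk 96 148 qW5_3 (List.range' 16 16) = true := by decide +kernel

theorem sW5_3_32 : symCk 96 148 qW5_3 (List.range' 32 16) = true := by decide +kernel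

theorem sW5_3_48 : symCk 96 148 qW5_3 (List.range' 48 16) = true := by decide +kernel

theorem sW5_3_64 : symCk 96 148 qW5_3 (List.range' 64 16) = true := by decide +kernel

theorem sW5_3_80 : symCk 96 148 qW5_3 (List.range' 80 16) = true := by decide +kernel

theorem sW5_3_96 : symCk 96 148 qW5_3 (List.range' 96 16) = true := by decide +kernel

theorem sW5_3_112 : symCk 96 148 qW5_3 (List.range' 112 16) = true := by decide +kernel

theorem sW5_3_128 : symCk 96 148 qW5_3 (List.range' 128 16) = true := by decide +kernel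

theorem sW5_3_144 : symCk 96 148 qW5_3 (List.range' 144 4) = true := by decide +kernel

theorem abW5_3 : ∀ f < 148, ∃ fs : List Nat, f ∈ fs ∧ blkCk pW5_3 W5_3 qW5_3 fs = true := by
  intro f hf
  by_cases h0 : f < 16
  · exact ⟨_, List.mem_range'_1.2 ⟨by omega, by omega⟩, bW5_3_0⟩
  by_cases h1 : f < 32
  · exact ⟨_, List.mem_range'_1.2 ⟨by omega, by omega⟩, bW5_3_16⟩
  by_cases h2 : f < 48
  · exact ⟨_, List.mem_range'_1.2 ⟨by omega, by omega⟩, bW5_3_32⟩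
  by_cases h3 : f < 64
  · exact ⟨_, List.mem_range'_1.2 ⟨by omega, by omega⟩, bW5_3_48⟩
  by_cases h4 : f < 80
  · exact ⟨_, List.mem_range'_1.2 ⟨by omega, by omega⟩, bW5_3_64⟩
  by_cases h5 : f < 96
  · exact ⟨_, List.mem_range'_1.2 ⟨by omega, by omega⟩, bW5_3_80⟩
  by_cases h6 : f < 112
  · exact ⟨_, List.mem_range'_1.2 ⟨by omega, by omega⟩, bW5_3_96⟩
  by_cases h7 : f < 128
  · exact ⟨_, List.mem_range'_1.2 ⟨by omega, by omega⟩, bW5_3_112⟩
  by_cases h8 : f < 144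
  · exact ⟨_, List.mem_range'_1.2 ⟨by omega, by omega⟩, bW5_3_128⟩
  exact ⟨_, List.mem_range'_1.2 ⟨by omega, by omega⟩, bW5_3_144⟩

theorem asW5_3 : ∀ f < 148, ∃ fs : List Nat, f ∈ fs ∧ symCk 96 148 qW5_3 fs = true := by
  intro f hf
  by_cases h0 : f < 16
  · exact ⟨_, List.mem_range'_1.2 ⟨by omega, by omega⟩, sW5_3_0⟩
  by_cases h1 : f < 32
  · exact ⟨_, List.mem_range'_1.2 ⟨by omega, by omega⟩, sW5_3_16⟩
  by_cases h2 : f < 48
  · exact ⟨_, List.mem_range'_1.2 ⟨by omega, by omega⟩, sW5_3_32⟩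
  by_cases h3 : f < 64
  · exact ⟨_, List.mem_range'_1.2 ⟨by omega, by omega⟩, sW5_3_48⟩
  by_cases h4 : f < 80
  · exact ⟨_, List.mem_range'_1.2 ⟨by omega, by omega⟩, sW5_3_64⟩
  by_cases h5 : f < 96
  · exact ⟨_, List.mem_range'_1.2 ⟨by omega, by omega⟩, sW5_3_80⟩
  by_cases h6 : f < 112
  · exact ⟨_, List.mem_range'_1.2 ⟨by omega, by omega⟩, sW5_3_96⟩
  by_cases h7 : f < 128
  · exact ⟨_, List.mem_range'_1.2 ⟨by omega, by omega⟩, sW5_3_112⟩
  by_cases h8 : f < 144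
  · exact ⟨_, List.mem_range'_1.2 ⟨by omega, by omega⟩, sW5_3_128⟩
  exact ⟨_, List.mem_range'_1.2 ⟨by omega, by omega⟩, sW5_3_144⟩

theorem nfW5_3 : C5.nf 3 = 148 := by decide +kernel

theorem offW5_3 : C5.OFF = 140737488355328 := by decide +kernel

theorem psdW5_3 : PsdT C5 3 := by
  refine psdT_of_check0 (T := C5) (t := 3) (p := pW5_3) (rows := W5_3) rfl nfW5_3.symm offW5_3.symm okW5_3 facW5_3 ?_
  exact abW5_3

theorem symW5_3 : ∀ f < C5.nf 3, ∀ g < C5.nf 3, C5.qe 3 f g = C5.qe 3 g f := by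
  refine symT_of_check (T := C5) (t := 3) ?_
  rw [nfW5_3]
  exact asW5_3

end KC.E2
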