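import Pool.Agent.Helper13.KC.E2.Tabs
import Pool.Agent.Helper25.K4.Parts
import Pool.Agent.Helper13.KC.E2.W5_4_0
import Pool.Agent.Helper13.KC.E2.W5_4_1

set_option autoImplicit false
set_option maxRecDepth 100000

namespace KC.E2

open KC

/-- The factor. -/
def W5_4 : List Nat :=
  [W5_4_r0, W5_4_r1, W5_4_r2, W5_4_r3, W5_4_r4, W5_4_r5, W5_4_r6, W5_4_r7, W5_4_r8, W5_4_r9, W5_4_r10, W5_4_r11, W5_4_r12, W5_4_r13, W5_4_r14, W5_4_r15, W5_4_r16, W5_4_r17, W5_4_r18, W5_4_r19, W5_4_r20, W5_4_r21, W5_4_r22, W5_4_r23, W5_4_r24, W5_4_r25, W5_4_r26, W5_4_r27, W5_4_r28, W5_4_r29, W5_4_r30, W5_4_r31, W5_4_r32, W5_4_r33, W5_4_r34, W5_4_r35, W5_4_r36, W5_4_r37, W5_4_r38, W5_4_r39, W5_4_r40, W5_4_r41, W5_4_r42, W5_4_r43, W5_4_r44, W5_4_r45, W5_4_r46, W5_4_r47, W5_4_r48, W5_4_r49, W5_4_r50, W5_4_r51, W5_4_r52, W5_4_r53, W5_4_r54, W5_4_r55, W5_4_r56, W5_4_r57, W5_4_r58, W5_4_r59, W5_4_r60, W5_4_r61, W5_4_r62,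 W5_4_r63, W5_4_r64, W5_4_r65, W5_4_r66, W5_4_r67, W5_4_r68, W5_4_r69, W5_4_r70, W5_4_r71, W5_4_r72, W5_4_r73, W5_4_r74, W5_4_r75, W5_4_r76, W5_4_r77, W5_4_r78, W5_4_r79, W5_4_r80, W5_4_r81, W5_4_r82, W5_4_r83, W5_4_r84, W5_4_r85, W5_4_r86, W5_4_r87, W5_4_r88, W5_4_r89, W5_4_r90, W5_4_r91, W5_4_r92, W5_4_r93, W5_4_r94, W5_4_r95, W5_4_r96, W5_4_r97, W5_4_r98, W5_4_r99, W5_4_r100, W5_4_r101, W5_4_r102, W5_4_r103, W5_4_r104, W5_4_r105, W5_4_r106, W5_4_r107, W5_4_r108, W5_4_r109, W5_4_r110, W5_4_r111, W5_4_r112, W5_4_r113, W5_4_r114, W5_4_r115, W5_4_r116, W5_4_r117, W5_4_r118, W5_4_r119, W5_4_r120, W5_4_r121, W5_4_r122, W5_4_r123, W5_4_r124, W5_4_r125, W5_4_r126, W5_4_r127, W5_4_r128, W5_4_r129, W5_4_r130, W5_4_r131, W5_4_r132, W5_4_r133, W5_4_r134, W5_4_r135, W5_4_r136, W5_4_r137, W5_4_r138, W5_4_r139, W5_4_r140, W5_4_r141, W5_4_r142, W5_4_r143, W5_4_r144, W5_4_r145, W5_4_r146, W5_4_r147, W5_4_r148,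 W5_4_r149, W5_4_r150, W5_4_r151, W5_4_r152, W5_4_r153, W5_4_r154, W5_4_r155, W5_4_r156, W5_4_r157, W5_4_r158, W5_4_r159, W5_4_r160, W5_4_r161, W5_4_r162, W5_4_r163, W5_4_r164, W5_4_r165, W5_4_r166, W5_4_r167, W5_4_r168, W5_4_r169, W5_4_r170, W5_4_r171, W5_4_r172]

/-- The parameters. -/
def pW5_4 : PP := ⟨96, 173, 8192, 140737488355328, 134217728, 28, 44703900419, 48, 28⟩

/-- The rows. -/
noncomputable def qW5_4 (f : Nat) : Nat := C5.QT.get (Nat.add (C5.rb 4) f)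

theorem okW5_4 : pW5_4.ok (W5_4).length = true := by decide +kernel

theorem facW5_4 : facCk pW5_4 W5_4 = true := by decide +kernel

theorem bW5_4_0 : blkCk pW5_4 W5_4 qW5_4 (List.range' 0 16) = true := by decide +kernel

theorem bW5_4_16 : blkCk pW5_4 W5_4 qW5_4 (List.range' 16 16) = true := by decide +kernel

theorem bW5_4_32 : blkCk pW5_4 W5_4 qW5_4 (List.range' 32 16) = true := by decide +kernel

theorem bW5_4_48 : blkCk pW5_4 W5_4 qW5_4 (List.range' 48 16) = true := by decide +kernel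

theorem bW5_4_64 : blkCk pW5_4 W5_4 qW5_4 (List.range' 64 16) = true := by decide +kernel

theorem bW5_4_80 : blkCk pW5_4 W5_4 qW5_4 (List.range' 80 16) = true := by decide +kernel

theorem bW5_4_96 : blkCk pW5_4 W5_4 qW5_4 (List.range' 96 16) = true := by decide +kernel

theorem bW5_4_112 : blkCk pW5_4 W5_4 qW5_4 (List.range' 112 16) = true := by decide +kernel

theorem bW5_4_128 : blkCk pW5_4 W5_4 qW5_4 (List.range' 128 16) = true := by decide +kernel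

theorem bW5_4_144 : blkCk pW5_4 W5_4 qW5_4 (List.range' 144 16) = true := by decide +kernel

theorem bW5_4_160 : blkCk pW5_4 W5_4 qW5_4 (List.range' 160 13) = true := by decide +kernel

theorem sW5_4_0 : symCk 96 173 qW5_4 (List.range' 0 16) = true := by decide +kernel

theorem sW5_4_16 : symCk 96 173 qW5_4 (List.range' 16 16) = true := by decide +kernel

theorem sW5_4_32 : symCk 96 173 qW5_4 (List.range' 32 16) = true := by decide +kernel

theorem sW5_4_48 : symCk 96 173 qW5_4 (List.range' 48 16) = true := by decide +kernel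

theorem sW5_4_64 : symCk 96 173 qW5_4 (List.range' 64 16) = true := by decide +kernel

theorem sW5_4_80 : symCk 96 173 qW5_4 (List.range' 80 16) = true := by decide +kernel

theorem sW5_4_96 : symCk 96 173 qW5_4 (List.range' 96 16) = true := by decide +kernel

theorem sW5_4_112 : symCk 96 173 qW5_4 (List.range' 112 16) = true := by decide +kernel

theorem sW5_4_128 : symCk 96 173 qW5_4 (List.range' 128 16) = true := by decide +kernel

theorem sW5_4_144 : symCk 96 173 qW5_4 (List.range' 144 16) = true := by decide +kernel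

theorem sW5_4_160 : symCk 96 173 qW5_4 (List.range' 160 13) = true := by decide +kernel

theorem abW5_4 : ∀ f < 173, ∃ fs : List Nat, f ∈ fs ∧ blkCk pW5_4 W5_4 qW5_4 fs = true := by
  intro f hf
  by_cases h0 : f < 16
  · exact ⟨_, List.mem_range'_1.2 ⟨by omega, by omega⟩, bW5_4_0⟩
  by_cases h1 : f < 32
  · exact ⟨_, List.mem_range'_1.2 ⟨by omega, by omega⟩, bW5_4_16⟩
  by_cases h2 : f < 48
  · exact ⟨_, List.mem_range'_1.2 ⟨by omega, by omega⟩, bW5_4_32⟩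
  by_cases h3 : f < 64
  · exact ⟨_, List.mem_range'_1.2 ⟨by omega, by omega⟩, bW5_4_48⟩
  by_cases h4 : f < 80
  · exact ⟨_, List.mem_range'_1.2 ⟨by omega, by omega⟩, bW5_4_64⟩
  by_cases h5 : f < 96
  · exact ⟨_, List.mem_range'_1.2 ⟨by omega, by omega⟩, bW5_4_80⟩
  by_cases h6 : f < 112
  · exact ⟨_, List.mem_range'_1.2 ⟨by omega, by omega⟩, bW5_4_96⟩
  by_cases h7 : f < 128
  · exact ⟨_, List.mem_range'_1.2 ⟨by omega, by omega⟩, bW5_4_112⟩
  by_cases h8 : f < 144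
  · exact ⟨_, List.mem_range'_1.2 ⟨by omega, by omega⟩, bW5_4_128⟩
  by_cases h9 : f < 160
  · exact ⟨_, List.mem_range'_1.2 ⟨by omega, by omega⟩, bW5_4_144⟩
  exact ⟨_, List.mem_range'_1.2 ⟨by omega, by omega⟩, bW5_4_160⟩

theorem asW5_4 : ∀ f < 173, ∃ fs : List Nat, f ∈ fs ∧ symCk 96 173 qW5_4 fs = true := by
  intro f hf
  by_cases h0 : f < 16
  · exact ⟨_, List.mem_range'_1.2 ⟨by omega, by omega⟩, sW5_4_0⟩
  by_cases h1 : f < 32
  · exact ⟨_, List.mem_range'_1.2 ⟨by omega, by omega⟩, sW5_4_16⟩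
  by_cases h2 : f < 48
  · exact ⟨_, List.mem_range'_1.2 ⟨by omega, by omega⟩, sW5_4_32⟩
  by_cases h3 : f < 64
  · exact ⟨_, List.mem_range'_1.2 ⟨by omega, by omega⟩, sW5_4_48⟩
  by_cases h4 : f < 80
  · exact ⟨_, List.mem_range'_1.2 ⟨by omega, by omega⟩, sW5_4_64⟩
  by_cases h5 : f < 96
  · exact ⟨_, List.mem_range'_1.2 ⟨by omega, by omega⟩, sW5_4_80⟩
  by_cases h6 : f < 112
  · exact ⟨_, List.mem_range'_1.2 ⟨by omega, by omega⟩, sW5_4_96⟩
  by_cases h7 : f < 128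
  · exact ⟨_, List.mem_range'_1.2 ⟨by omega, by omega⟩, sW5_4_112⟩
  by_cases h8 : f < 144
  · exact ⟨_, List.mem_range'_1.2 ⟨by omega, by omega⟩, sW5_4_128⟩
  by_cases h9 : f < 160
  · exact ⟨_, List.mem_range'_1.2 ⟨by omega, by omega⟩, sW5_4_144⟩
  exact ⟨_, List.mem_range'_1.2 ⟨by omega, by omega⟩, sW5_4_160⟩

theorem nfW5_4 : C5.nf 4 = 173 := by decide +kernel

theorem offW5_4 : C5.OFF = 140737488355328 := by decide +kernel

theorem psdW5_4 : PsdT C5 4 := by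
  refine psdT_of_check0 (T := C5) (t := 4) (p := pW5_4) (rows := W5_4) rfl nfW5_4.symm offW5_4.symm okW5_4 facW5_4 ?_
  exact abW5_4

theorem symW5_4 : ∀ f < C5.nf 4, ∀ g < C5.nf 4, C5.qe 4 f g = C5.qe 4 g f := by
  refine symT_of_check (T := C5) (t := 4) ?_
  rw [nfW5_4]
  exact asW5_4

end KC.E2
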