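import Pool.Agent.Helper13.KC.E2.Tabs
import Pool.Agent.Helper25.K4.Parts
import Pool.Agent.Helper13.KC.E2.W5_5_0
import Pool.Agent.Helper13.KC.E2.W5_5_1

set_option autoImplicit false
set_option maxRecDepth 100000

namespace KC.E2

open KC

/-- The factor. -/
def W5_5 : List Nat :=
  [W5_5_r0, W5_5_r1, W5_5_r2, W5_5_r3, W5_5_r4, W5_5_r5, W5_5_r6, W5_5_r7, W5_5_r8, W5_5_r9, W5_5_r10, W5_5_r11, W5_5_r12, W5_5_r13, W5_5_r14, W5_5_r15, W5_5_r16, W5_5_r17, W5_5_r18, W5_5_r19, W5_5_r20, W5_5_r21, W5_5_r22, W5_5_r23, W5_5_r24, W5_5_r25, W5_5_r26, W5_5_r27, W5_5_r28, W5_5_r29, W5_5_r30, W5_5_r31, W5_5_r32, W5_5_r33, W5_5_r34, W5_5_r35, W5_5_r36, W5_5_r37, W5_5_r38, W5_5_r39, W5_5_r40, W5_5_r41, W5_5_r42, W5_5_r43, W5_5_r44, W5_5_r45, W5_5_r46, W5_5_r47, W5_5_r48, W5_5_r49, W5_5_r50, W5_5_r51, W5_5_r52, W5_5_r53, W5_5_r54, W5_5_r55, W5_5_r56, W5_5_r57, W5_5_r58, W5_5_r59, W5_5_r60, W5_5_r61, W5_5_r62,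 W5_5_r63, W5_5_r64, W5_5_r65, W5_5_r66, W5_5_r67, W5_5_r68, W5_5_r69, W5_5_r70, W5_5_r71, W5_5_r72, W5_5_r73, W5_5_r74, W5_5_r75, W5_5_r76, W5_5_r77, W5_5_r78, W5_5_r79, W5_5_r80, W5_5_r81, W5_5_r82, W5_5_r83, W5_5_r84, W5_5_r85, W5_5_r86, W5_5_r87, W5_5_r88, W5_5_r89, W5_5_r90, W5_5_r91, W5_5_r92, W5_5_r93, W5_5_r94, W5_5_r95, W5_5_r96, W5_5_r97, W5_5_r98, W5_5_r99, W5_5_r100, W5_5_r101, W5_5_r102, W5_5_r103, W5_5_r104, W5_5_r105, W5_5_r106, W5_5_r107, W5_5_r108, W5_5_r109, W5_5_r110, W5_5_r111, W5_5_r112, W5_5_r113, W5_5_r114, W5_5_r115, W5_5_r116, W5_5_r117, W5_5_r118, W5_5_r119, W5_5_r120, W5_5_r121, W5_5_r122, W5_5_r123, W5_5_r124, W5_5_r125, W5_5_r126, W5_5_r127, W5_5_r128, W5_5_r129, W5_5_r130, W5_5_r131, W5_5_r132, W5_5_r133, W5_5_r134]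

/-- The parameters. -/
def pW5_5 : PP := ⟨96, 135, 4194304, 140737488355328, 2147483648, 33, 1125110633347, 48, 32⟩

/-- The rows. -/
noncomputable def qW5_5 (f : Nat) : Nat := C5.QT.get (Nat.add (C5.rb 5) f)

theorem okW5_5 : pW5_5.ok (W5_5).length = true := by decide +kernel

theorem facW5_5 : facCk pW5_5 W5_5 = true := by decide +kernel

theorem bW5_5_0 : blkCk pW5_5 W5_5 qW5_5 (List.range' 0 16) = true := by decide +kernel

theorem bW5_5_16 : blkCk pW5_5 W5_5 qW5_5 (List.range' 16 16) = true := by decide +kernel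

theorem bW5_5_32 : blkCk pW5_5 W5_5 qW5_5 (List.range' 32 16) = true := by decide +kernel

theorem bW5_5_48 : blkCk pW5_5 W5_5 qW5_5 (List.range' 48 16) = true := by decide +kernel

theorem bW5_5_64 : blkCk pW5_5 W5_5 qW5_5 (List.range' 64 16) = true := by decide +kernel

theorem bW5_5_80 : blkCk pW5_5 W5_5 qW5_5 (List.range' 80 16) = true := by decide +kernel

theorem bW5_5_96 : blkCk pW5_5 W5_5 qW5_5 (List.range' 96 16) = true := by decide +kernel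

theorem bW5_5_112 : blkCk pW5_5 W5_5 qW5_5 (List.range' 112 16) = true := by decide +kernel

theorem bW5_5_128 : blkCk pW5_5 W5_5 qW5_5 (List.range' 128 7) = true := by decide +kernel

theorem sW5_5_0 : symCk 96 135 qW5_5 (List.range' 0 16) = true := by decide +kernel

theorem sW5_5_16 : symCk 96 135 qW5_5 (List.range' 16 16) = true := by decide +kernel

theorem sW5_5_32 : symCk 96 135 qW5_5 (List.range' 32 16) = true := by decide +kernel

theorem sW5_5_48 : symCk 96 135 qW5_5 (List.range' 48 16) = true := by decide +kernel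

theorem sW5_5_64 : symCk 96 135 qW5_5 (List.range' 64 16) = true := by decide +kernel

theorem sW5_5_80 : symCk 96 135 qW5_5 (List.range' 80 16) = true := by decide +kernel

theorem sW5_5_96 : symCk 96 135 qW5_5 (List.range' 96 16) = true := by decide +kernel

theorem sW5_5_112 : symCk 96 135 qW5_5 (List.range' 112 16) = true := by decide +kernel

theorem sW5_5_128 : symCk 96 135 qW5_5 (List.range' 128 7) = true := by decide +kernel

theorem abW5_5 : ∀ f < 135, ∃ fs : List Nat, f ∈ fs ∧ blkCk pW5_5 W5_5 qW5_5 fs = true := by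
  intro f hf
  by_cases h0 : f < 16
  · exact ⟨_, List.mem_range'_1.2 ⟨by omega, by omega⟩, bW5_5_0⟩
  by_cases h1 : f < 32
  · exact ⟨_, List.mem_range'_1.2 ⟨by omega, by omega⟩, bW5_5_16⟩
  by_cases h2 : f < 48
  · exact ⟨_, List.mem_range'_1.2 ⟨by omega, by omega⟩, bW5_5_32⟩
  by_cases h3 : f < 64
  · exact ⟨_, List.mem_range'_1.2 ⟨by omega, by omega⟩, bW5_5_48⟩
  by_cases h4 : f < 80
  · exact ⟨_, List.mem_range'_1.2 ⟨by omega, by omega⟩, bW5_5_64⟩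
  by_cases h5 : f < 96
  · exact ⟨_, List.mem_range'_1.2 ⟨by omega, by omega⟩, bW5_5_80⟩
  by_cases h6 : f < 112
  · exact ⟨_, List.mem_range'_1.2 ⟨by omega, by omega⟩, bW5_5_96⟩
  by_cases h7 : f < 128
  · exact ⟨_, List.mem_range'_1.2 ⟨by omega, by omega⟩, bW5_5_112⟩
  exact ⟨_, List.mem_range'_1.2 ⟨by omega, by omega⟩, bW5_5_128⟩

theorem asW5_5 : ∀ f < 135, ∃ fs : List Nat, f ∈ fs ∧ symCk 96 135 qW5_5 fs = true := by
  intro f hf
  by_cases h0 : f < 16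
  · exact ⟨_, List.mem_range'_1.2 ⟨by omega, by omega⟩, sW5_5_0⟩
  by_cases h1 : f < 32
  · exact ⟨_, List.mem_range'_1.2 ⟨by omega, by omega⟩, sW5_5_16⟩
  by_cases h2 : f < 48
  · exact ⟨_, List.mem_range'_1.2 ⟨by omega, by omega⟩, sW5_5_32⟩
  by_cases h3 : f < 64
  · exact ⟨_, List.mem_range'_1.2 ⟨by omega, by omega⟩, sW5_5_48⟩
  by_cases h4 : f < 80
  · exact ⟨_, List.mem_range'_1.2 ⟨by omega, by omega⟩, sW5_5_64⟩
  by_cases h5 : f < 96
  · exact ⟨_, List.mem_range'_1.2 ⟨by omega, by omega⟩, sW5_5_80⟩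
  by_cases h6 : f < 112
  · exact ⟨_, List.mem_range'_1.2 ⟨by omega, by omega⟩, sW5_5_96⟩
  by_cases h7 : f < 128
  · exact ⟨_, List.mem_range'_1.2 ⟨by omega, by omega⟩, sW5_5_112⟩
  exact ⟨_, List.mem_range'_1.2 ⟨by omega, by omega⟩, sW5_5_128⟩

theorem nfW5_5 : C5.nf 5 = 135 := by decide +kernel

theorem offW5_5 : C5.OFF = 140737488355328 := by decide +kernel

theorem psdW5_5 : PsdT C5 5 := by
  refine psdT_of_check0 (T := C5) (t := 5) (p := pW5_5) (rows := W5_5) rfl nfW5_5.symm offW5_5.symm okW5_5 facW5_5 ?_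
  exact abW5_5

theorem symW5_5 : ∀ f < C5.nf 5, ∀ g < C5.nf 5, C5.qe 5 f g = C5.qe 5 g f := by
  refine symT_of_check (T := C5) (t := 5) ?_
  rw [nfW5_5]
  exact asW5_5

end KC.E2
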