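import Pool.Agent.Helper13.KC.E2.Tabs
import Pool.Agent.Helper25.K4.Parts
import Pool.Agent.Helper13.KC.E2.W5_6_0
import Pool.Agent.Helper13.KC.E2.W5_6_1

set_option autoImplicit false
set_option maxRecDepth 100000

namespace KC.E2

open KC

/-- The factor. -/
def W5_6 : List Nat :=
  [W5_6_r0, W5_6_r1, W5_6_r2, W5_6_r3, W5_6_r4, W5_6_r5, W5_6_r6, W5_6_r7, W5_6_r8, W5_6_r9, W5_6_r10, W5_6_r11, W5_6_r12, W5_6_r13, W5_6_r14, W5_6_r15, W5_6_r16, W5_6_r17, W5_6_r18, W5_6_r19, W5_6_r20, W5_6_r21, W5_6_r22, W5_6_r23, W5_6_r24, W5_6_r25, W5_6_r26, W5_6_r27, W5_6_r28, W5_6_r29, W5_6_r30, W5_6_r31, W5_6_r32, W5_6_r33, W5_6_r34, W5_6_r35, W5_6_r36, W5_6_r37, W5_6_r38, W5_6_r39, W5_6_r40, W5_6_r41, W5_6_r42, W5_6_r43, W5_6_r44, W5_6_r45, W5_6_r46, W5_6_r47, W5_6_r48, W5_6_r49, W5_6_r50, W5_6_r51, W5_6_r52, W5_6_r53, W5_6_r54, W5_6_r55, W5_6_r56, W5_6_r57, W5_6_r58, W5_6_r59, W5_6_r60, W5_6_r61, W5_6_r62,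 W5_6_r63, W5_6_r64, W5_6_r65, W5_6_r66, W5_6_r67, W5_6_r68, W5_6_r69, W5_6_r70, W5_6_r71, W5_6_r72, W5_6_r73, W5_6_r74, W5_6_r75, W5_6_r76, W5_6_r77, W5_6_r78, W5_6_r79, W5_6_r80, W5_6_r81, W5_6_r82, W5_6_r83, W5_6_r84, W5_6_r85, W5_6_r86, W5_6_r87, W5_6_r88, W5_6_r89, W5_6_r90, W5_6_r91, W5_6_r92, W5_6_r93, W5_6_r94, W5_6_r95, W5_6_r96, W5_6_r97, W5_6_r98, W5_6_r99, W5_6_r100, W5_6_r101, W5_6_r102, W5_6_r103, W5_6_r104, W5_6_r105, W5_6_r106, W5_6_r107, W5_6_r108, W5_6_r109, W5_6_r110, W5_6_r111, W5_6_r112, W5_6_r113, W5_6_r114, W5_6_r115, W5_6_r116, W5_6_r117, W5_6_r118, W5_6_r119, W5_6_r120, W5_6_r121, W5_6_r122, W5_6_r123]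

/-- The parameters. -/
def pW5_6 : PP := ⟨96, 124, 2048, 140737488355328, 33554432, 27, 13062959400, 48, 26⟩

/-- The rows. -/
noncomputable def qW5_6 (f : Nat) : Nat := C5.QT.get (Nat.add (C5.rb 6) f)

theorem okW5_6 : pW5_6.ok (W5_6).length = true := by decide +kernel

theorem facW5_6 : facCk pW5_6 W5_6 = true := by decide +kernel

theorem bW5_6_0 : blkCk pW5_6 W5_6 qW5_6 (List.range' 0 16) = true := by decide +kernel

theorem bW5_6_16 : blkCk pW5_6 W5_6 qW5_6 (List.range' 16 16) = true := by decide +kernel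

theorem bW5_6_32 : blkCk pW5_6 W5_6 qW5_6 (List.range' 32 16) = true := by decide +kernel

theorem bW5_6_48 : blkCk pW5_6 W5_6 qW5_6 (List.range' 48 16) = true := by decide +kernel

theorem bW5_6_64 : blkCk pW5_6 W5_6 qW5_6 (List.range' 64 16) = true := by decide +kernel

theorem bW5_6_80 : blkCk pW5_6 W5_6 qW5_6 (List.range' 80 16) = true := by decide +kernel

theorem bW5_6_96 : blkCk pW5_6 W5_6 qW5_6 (List.range' 96 16) = true := by decide +kernel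

theorem bW5_6_112 : blkCk pW5_6 W5_6 qW5_6 (List.range' 112 12) = true := by decide +kernel

theorem sW5_6_0 : symCk 96 124 qW5_6 (List.range' 0 16) = true := by decide +kernel

theorem sW5_6_16 : symCk 96 124 qW5_6 (List.range' 16 16) = true := by decide +kernel

theorem sW5_6_32 : symCk 96 124 qW5_6 (List.range' 32 16) = true := by decide +kernel

theorem sW5_6_48 : symCk 96 124 qW5_6 (List.range' 48 16) = true := by decide +kernel

theorem sW5_6_64 : symCk 96 124 qW5_6 (List.range' 64 16) = true := by decide +kernel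

theorem sW5_6_80 : symCk 96 124 qW5_6 (List.range' 80 16) = true := by decide +kernel

theorem sW5_6_96 : symCk 96 124 qW5_6 (List.range' 96 16) = true := by decide +kernel

theorem sW5_6_112 : symCk 96 124 qW5_6 (List.range' 112 12) = true := by decide +kernel

theorem abW5_6 : ∀ f < 124, ∃ fs : List Nat, f ∈ fs ∧ blkCk pW5_6 W5_6 qW5_6 fs = true := by
  intro f hf
  by_cases h0 : f < 16
  · exact ⟨_, List.mem_range'_1.2 ⟨by omega, by omega⟩, bW5_6_0⟩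
  by_cases h1 : f < 32
  · exact ⟨_, List.mem_range'_1.2 ⟨by omega, by omega⟩, bW5_6_16⟩
  by_cases h2 : f < 48
  · exact ⟨_, List.mem_range'_1.2 ⟨by omega, by omega⟩, bW5_6_32⟩
  by_cases h3 : f < 64
  · exact ⟨_, List.mem_range'_1.2 ⟨by omega, by omega⟩, bW5_6_48⟩
  by_cases h4 : f < 80
  · exact ⟨_, List.mem_range'_1.2 ⟨by omega, by omega⟩, bW5_6_64⟩
  by_cases h5 : f < 96
  · exact ⟨_, List.mem_range'_1.2 ⟨by omega, by omega⟩, bW5_6_80⟩
  by_cases h6 : f < 112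
  · exact ⟨_, List.mem_range'_1.2 ⟨by omega, by omega⟩, bW5_6_96⟩
  exact ⟨_, List.mem_range'_1.2 ⟨by omega, by omega⟩, bW5_6_112⟩

theorem asW5_6 : ∀ f < 124, ∃ fs : List Nat, f ∈ fs ∧ symCk 96 124 qW5_6 fs = true := by
  intro f hf
  by_cases h0 : f < 16
  · exact ⟨_, List.mem_range'_1.2 ⟨by omega, by omega⟩, sW5_6_0⟩
  by_cases h1 : f < 32
  · exact ⟨_, List.mem_range'_1.2 ⟨by omega, by omega⟩, sW5_6_16⟩
  by_cases h2 : f < 48
  · exact ⟨_, List.mem_range'_1.2 ⟨by omega, by omega⟩, sW5_6_32⟩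
  by_cases h3 : f < 64
  · exact ⟨_, List.mem_range'_1.2 ⟨by omega, by omega⟩, sW5_6_48⟩
  by_cases h4 : f < 80
  · exact ⟨_, List.mem_range'_1.2 ⟨by omega, by omega⟩, sW5_6_64⟩
  by_cases h5 : f < 96
  · exact ⟨_, List.mem_range'_1.2 ⟨by omega, by omega⟩, sW5_6_80⟩
  by_cases h6 : f < 112
  · exact ⟨_, List.mem_range'_1.2 ⟨by omega, by omega⟩, sW5_6_96⟩
  exact ⟨_, List.mem_range'_1.2 ⟨by omega, by omega⟩, sW5_6_112⟩

theorem nfW5_6 : C5.nf 6 = 124 := by decide +kernel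

theorem offW5_6 : C5.OFF = 140737488355328 := by decide +kernel

theorem psdW5_6 : PsdT C5 6 := by
  refine psdT_of_check0 (T := C5) (t := 6) (p := pW5_6) (rows := W5_6) rfl nfW5_6.symm offW5_6.symm okW5_6 facW5_6 ?_
  exact abW5_6

theorem symW5_6 : ∀ f < C5.nf 6, ∀ g < C5.nf 6, C5.qe 6 f g = C5.qe 6 g f := by
  refine symT_of_check (T := C5) (t := 6) ?_
  rw [nfW5_6]
  exact asW5_6

end KC.E2
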