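set_option autoImplicit false
set_option maxRecDepth 100000

namespace KC.E2

def W5_7_r100 : Nat := 0x4001057ccc000000000000004000000000000000000000004000000000000000000000004000000000000000000000004000000000000000000000004000000000000000000000004000000000000000000000004000000000000000000000004000000000000000000000004000000000000000000000004000000000000000000000004000000000000000000000004000000000000000000000004000000000000000000000004000000000000000000000004000000000000000000000004000000000000000000000004000000000000000000000004000000000000000000000004000000000000000000000004000000000000000000000004000000000000000000000004000000000000000000000004000000000000000000000004000000000000000000000004000000000000000000000004000000000000000000000004000000000000000000000004000000000000000000000004000000000000000000000004000000000000000000000004000000000000000000000004000000000000000000000004000000000000000000000004000000000000000000000004000000000000000000000004000000000000000000000004000000000000000000000004000000000000000000000004000000000000000000000004000000000000000000000004000000000000000000000004000000000000000000000004000000000000000000000004000000000000000000000004000000000000000000000004000000000000000000000004000000000000000000000004000000000000000000000004000000000000000000000004000000000000000000000004000000000000000000000004000000000000000000000004000000000000000000000004000000000000000000000004000000000000000000000004000000000000000000000004000000000000000000000004000000000000000000000004000000000000000000000004000000000000000000000004000000000000000000000004000000000000000000000004000000000000000000000004000000000000000000000004000000000000000000000004000000000000000000000004000000000000000000000004000000000000000000000004000000000000000000000004000000000000000000000004000000000000000000000004000000000000000000000004000000000000000000000004000000000000000000000004000000000000000000000004000000000000000000000004000000000000000000000004000000000000000000000004000000000000000000000004000000000000000000000004000000000000000000000004000000000000000000000004000000000000000000000004000000000000000000000004000000000000000000000004000000000000000000000004000000000000000000000004000000000000000000000004000000000000000000000004000000000000000000000004000000000000000000000004000000000000000000000004000000000000000000000004000000000000000000000004000000000000000000000004000000000000000000000004000000000000000000000004000000000000000000000004000000000000000000000004000000000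

end KC.E2
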