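import Pool.Agent.Helper13.KC.E2.Tabs
import Pool.Agent.Helper25.K4.Parts
import Pool.Agent.Helper13.KC.E2.W5_7_0
import Pool.Agent.Helper13.KC.E2.W5_7_1

set_option autoImplicit false
set_option maxRecDepth 100000

namespace KC.E2

open KC

/-- The factor. -/
def W5_7 : List Nat :=
  [W5_7_r0, W5_7_r1, W5_7_r2, W5_7_r3, W5_7_r4, W5_7_r5, W5_7_r6, W5_7_r7, W5_7_r8, W5_7_r9, W5_7_r10, W5_7_r11, W5_7_r12, W5_7_r13, W5_7_r14, W5_7_r15, W5_7_r16, W5_7_r17, W5_7_r18, W5_7_r19, W5_7_r20, W5_7_r21, W5_7_r22, W5_7_r23, W5_7_r24, W5_7_r25, W5_7_r26, W5_7_r27, W5_7_r28, W5_7_r29, W5_7_r30, W5_7_r31, W5_7_r32, W5_7_r33, W5_7_r34, W5_7_r35, W5_7_r36, W5_7_r37, W5_7_r38, W5_7_r39, W5_7_r40, W5_7_r41, W5_7_r42, W5_7_r43, W5_7_r44, W5_7_r45, W5_7_r46, W5_7_r47, W5_7_r48, W5_7_r49, W5_7_r50, W5_7_r51, W5_7_r52, W5_7_r53, W5_7_r54, W5_7_r55, W5_7_r56, W5_7_r57, W5_7_r58, W5_7_r59, W5_7_r60, W5_7_r61, W5_7_r62,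 W5_7_r63, W5_7_r64, W5_7_r65, W5_7_r66, W5_7_r67, W5_7_r68, W5_7_r69, W5_7_r70, W5_7_r71, W5_7_r72, W5_7_r73, W5_7_r74, W5_7_r75, W5_7_r76, W5_7_r77, W5_7_r78, W5_7_r79, W5_7_r80, W5_7_r81, W5_7_r82, W5_7_r83, W5_7_r84, W5_7_r85, W5_7_r86, W5_7_r87, W5_7_r88, W5_7_r89, W5_7_r90, W5_7_r91, W5_7_r92, W5_7_r93, W5_7_r94, W5_7_r95, W5_7_r96, W5_7_r97, W5_7_r98, W5_7_r99, W5_7_r100]

/-- The parameters. -/
def pW5_7 : PP := ⟨96, 101, 34359738368, 140737488355328, 274877906944, 39, 44510300755500, 48, 39⟩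

/-- The rows. -/
noncomputable def qW5_7 (f : Nat) : Nat := C5.QT.get (Nat.add (C5.rb 7) f)

theorem okW5_7 : pW5_7.ok (W5_7).length = true := by decide +kernel

theorem facW5_7 : facCk pW5_7 W5_7 = true := by decide +kernel

theorem bW5_7_0 : blkCk pW5_7 W5_7 qW5_7 (List.range' 0 16) = true := by decide +kernel

theorem bW5_7_16 : blkCk pW5_7 W5_7 qW5_7 (List.range' 16 16) = true := by decide +kernel

theorem bW5_7_32 : blkCk pW5_7 W5_7 qW5_7 (List.range' 32 16) = true := by decide +kernel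

theorem bW5_7_48 : blkCk pW5_7 W5_7 qW5_7 (List.range' 48 16) = true := by decide +kernel

theorem bW5_7_64 : blkCk pW5_7 W5_7 qW5_7 (List.range' 64 16) = true := by decide +kernel

theorem bW5_7_80 : blkCk pW5_7 W5_7 qW5_7 (List.range' 80 16) = true := by decide +kernel

theorem bW5_7_96 : blkCk pW5_7 W5_7 qW5_7 (List.range' 96 5) = true := by decide +kernel

theorem sW5_7_0 : symCk 96 101 qW5_7 (List.range' 0 16) = true := by decide +kernel

theorem sW5_7_16 : symCk 96 101 qW5_7 (List.range' 16 16) = true := by decide +kernel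

theorem sW5_7_32 : symCk 96 101 qW5_7 (List.range' 32 16) = true := by decide +kernel

theorem sW5_7_48 : symCk 96 101 qW5_7 (List.range' 48 16) = true := by decide +kernel

theorem sW5_7_64 : symCk 96 101 qW5_7 (List.range' 64 16) = true := by decide +kernel

theorem sW5_7_80 : symCk 96 101 qW5_7 (List.range' 80 16) = true := by decide +kernel

theorem sW5_7_96 : symCk 96 101 qW5_7 (List.range' 96 5) = true := by decide +kernel

theorem abW5_7 : ∀ f < 101, ∃ fs : List Nat, f ∈ fs ∧ blkCk pW5_7 W5_7 qW5_7 fs = true := by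
  intro f hf
  by_cases h0 : f < 16
  · exact ⟨_, List.mem_range'_1.2 ⟨by omega, by omega⟩, bW5_7_0⟩
  by_cases h1 : f < 32
  · exact ⟨_, List.mem_range'_1.2 ⟨by omega, by omega⟩, bW5_7_16⟩
  by_cases h2 : f < 48
  · exact ⟨_, List.mem_range'_1.2 ⟨by omega, by omega⟩, bW5_7_32⟩
  by_cases h3 : f < 64
  · exact ⟨_, List.mem_range'_1.2 ⟨by omega, by omega⟩, bW5_7_48⟩
  by_cases h4 : f < 80
  · exact ⟨_, List.mem_range'_1.2 ⟨by omega, by omega⟩, bW5_7_64⟩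
  by_cases h5 : f < 96
  · exact ⟨_, List.mem_range'_1.2 ⟨by omega, by omega⟩, bW5_7_80⟩
  exact ⟨_, List.mem_range'_1.2 ⟨by omega, by omega⟩, bW5_7_96⟩

theorem asW5_7 : ∀ f < 101, ∃ fs : List Nat, f ∈ fs ∧ symCk 96 101 qW5_7 fs = true := by
  intro f hf
  by_cases h0 : f < 16
  · exact ⟨_, List.mem_range'_1.2 ⟨by omega, by omega⟩, sW5_7_0⟩
  by_cases h1 : f < 32
  · exact ⟨_, List.mem_range'_1.2 ⟨by omega, by omega⟩, sW5_7_16⟩
  by_cases h2 : f < 48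
  · exact ⟨_, List.mem_range'_1.2 ⟨by omega, by omega⟩, sW5_7_32⟩
  by_cases h3 : f < 64
  · exact ⟨_, List.mem_range'_1.2 ⟨by omega, by omega⟩, sW5_7_48⟩
  by_cases h4 : f < 80
  · exact ⟨_, List.mem_range'_1.2 ⟨by omega, by omega⟩, sW5_7_64⟩
  by_cases h5 : f < 96
  · exact ⟨_, List.mem_range'_1.2 ⟨by omega, by omega⟩, sW5_7_80⟩
  exact ⟨_, List.mem_range'_1.2 ⟨by omega, by omega⟩, sW5_7_96⟩

theorem nfW5_7 : C5.nf 7 = 101 := by decide +kernel

theorem offW5_7 : C5.OFF = 140737488355328 := by decide +kernel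

theorem psdW5_7 : PsdT C5 7 := by
  refine psdT_of_check0 (T := C5) (t := 7) (p := pW5_7) (rows := W5_7) rfl nfW5_7.symm offW5_7.symm okW5_7 facW5_7 ?_
  exact abW5_7

theorem symW5_7 : ∀ f < C5.nf 7, ∀ g < C5.nf 7, C5.qe 7 f g = C5.qe 7 g f := by
  refine symT_of_check (T := C5) (t := 7) ?_
  rw [nfW5_7]
  exact asW5_7

end KC.E2
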