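import Pool.Agent.Helper13.KC.E2.Tabs
import Pool.Agent.Helper25.K4.Parts
import Pool.Agent.Helper13.KC.E2.W5_8_0

set_option autoImplicit false
set_option maxRecDepth 100000

namespace KC.E2

open KC

/-- The factor. -/
def W5_8 : List Nat :=
  [W5_8_r0, W5_8_r1, W5_8_r2, W5_8_r3, W5_8_r4, W5_8_r5, W5_8_r6, W5_8_r7, W5_8_r8, W5_8_r9, W5_8_r10, W5_8_r11, W5_8_r12, W5_8_r13, W5_8_r14, W5_8_r15, W5_8_r16, W5_8_r17, W5_8_r18, W5_8_r19, W5_8_r20, W5_8_r21, W5_8_r22, W5_8_r23, W5_8_r24, W5_8_r25, W5_8_r26, W5_8_r27, W5_8_r28, W5_8_r29, W5_8_r30, W5_8_r31, W5_8_r32, W5_8_r33, W5_8_r34, W5_8_r35, W5_8_r36, W5_8_r37, W5_8_r38, W5_8_r39, W5_8_r40, W5_8_r41, W5_8_r42, W5_8_r43, W5_8_r44, W5_8_r45, W5_8_r46, W5_8_r47, W5_8_r48, W5_8_r49, W5_8_r50, W5_8_r51, W5_8_r52, W5_8_r53, W5_8_r54, W5_8_r55, W5_8_r56, W5_8_r57, W5_8_r58, W5_8_r59, W5_8_r60, W5_8_r61, W5_8_r62, W5_8_r63, W5_8_r64, W5_8_r65, W5_8_r66,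 W5_8_r67, W5_8_r68, W5_8_r69, W5_8_r70, W5_8_r71, W5_8_r72, W5_8_r73, W5_8_r74, W5_8_r75, W5_8_r76, W5_8_r77, W5_8_r78, W5_8_r79, W5_8_r80, W5_8_r81, W5_8_r82, W5_8_r83, W5_8_r84, W5_8_r85, W5_8_r86, W5_8_r87, W5_8_r88, W5_8_r89, W5_8_r90, W5_8_r91, W5_8_r92, W5_8_r93, W5_8_r94]

/-- The parameters. -/
def pW5_8 : PP := ⟨96, 95, 524288, 140737488355328, 1073741824, 31, 129251315363, 48, 31⟩

/-- The rows. -/
noncomputable def qW5_8 (f : Nat) : Nat := C5.QT.get (Nat.add (C5.rb 8) f)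

theorem okW5_8 : pW5_8.ok (W5_8).length = true := by decide +kernel

theorem facW5_8 : facCk pW5_8 W5_8 = true := by decide +kernel

theorem bW5_8_0 : blkCk pW5_8 W5_8 qW5_8 (List.range' 0 16) = true := by decide +kernel

theorem bW5_8_16 : blkCk pW5_8 W5_8 qW5_8 (List.range' 16 16) = true := by decide +kernel

theorem bW5_8_32 : blkCk pW5_8 W5_8 qW5_8 (List.range' 32 16) = true := by decide +kernel

theorem bW5_8_48 : blkCk pW5_8 W5_8 qW5_8 (List.range' 48 16) = true := by decide +kernel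

theorem bW5_8_64 : blkCk pW5_8 W5_8 qW5_8 (List.range' 64 16) = true := by decide +kernel

theorem bW5_8_80 : blkCk pW5_8 W5_8 qW5_8 (List.range' 80 15) = true := by decide +kernel

theorem sW5_8_0 : symCk 96 95 qW5_8 (List.range' 0 16) = true := by decide +kernel

theorem sW5_8_16 : symCk 96 95 qW5_8 (List.range' 16 16) = true := by decide +kernel

theorem sW5_8_32 : symCk 96 95 qW5_8 (List.range' 32 16) = true := by decide +kernel

theorem sW5_8_48 : symCk 96 95 qW5_8 (List.range' 48 16) = true := by decide +kernel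

theorem sW5_8_64 : symCk 96 95 qW5_8 (List.range' 64 16) = true := by decide +kernel

theorem sW5_8_80 : symCk 96 95 qW5_8 (List.range' 80 15) = true := by decide +kernel

theorem abW5_8 : ∀ f < 95, ∃ fs : List Nat, f ∈ fs ∧ blkCk pW5_8 W5_8 qW5_8 fs = true := by
  intro f hf
  by_cases h0 : f < 16
  · exact ⟨_, List.mem_range'_1.2 ⟨by omega, by omega⟩, bW5_8_0⟩
  by_cases h1 : f < 32
  · exact ⟨_, List.mem_range'_1.2 ⟨by omega, by omega⟩, bW5_8_16⟩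
  by_cases h2 : f < 48
  · exact ⟨_, List.mem_range'_1.2 ⟨by omega, by omega⟩, bW5_8_32⟩
  by_cases h3 : f < 64
  · exact ⟨_, List.mem_range'_1.2 ⟨by omega, by omega⟩, bW5_8_48⟩
  by_cases h4 : f < 80
  · exact ⟨_, List.mem_range'_1.2 ⟨by omega, by omega⟩, bW5_8_64⟩
  exact ⟨_, List.mem_range'_1.2 ⟨by omega, by omega⟩, bW5_8_80⟩

theorem asW5_8 : ∀ f < 95, ∃ fs : List Nat, f ∈ fs ∧ symCk 96 95 qW5_8 fs = true := by
  intro f hf
  by_cases h0 : f < 16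
  · exact ⟨_, List.mem_range'_1.2 ⟨by omega, by omega⟩, sW5_8_0⟩
  by_cases h1 : f < 32
  · exact ⟨_, List.mem_range'_1.2 ⟨by omega, by omega⟩, sW5_8_16⟩
  by_cases h2 : f < 48
  · exact ⟨_, List.mem_range'_1.2 ⟨by omega, by omega⟩, sW5_8_32⟩
  by_cases h3 : f < 64
  · exact ⟨_, List.mem_range'_1.2 ⟨by omega, by omega⟩, sW5_8_48⟩
  by_cases h4 : f < 80
  · exact ⟨_, List.mem_range'_1.2 ⟨by omega, by omega⟩, sW5_8_64⟩
  exact ⟨_, List.mem_range'_1.2 ⟨by omega, by omega⟩, sW5_8_80⟩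

theorem nfW5_8 : C5.nf 8 = 95 := by decide +kernel

theorem offW5_8 : C5.OFF = 140737488355328 := by decide +kernel

theorem psdW5_8 : PsdT C5 8 := by
  refine psdT_of_check0 (T := C5) (t := 8) (p := pW5_8) (rows := W5_8) rfl nfW5_8.symm offW5_8.symm okW5_8 facW5_8 ?_
  exact abW5_8

theorem symW5_8 : ∀ f < C5.nf 8, ∀ g < C5.nf 8, C5.qe 8 f g = C5.qe 8 g f := by
  refine symT_of_check (T := C5) (t := 8) ?_
  rw [nfW5_8]
  exact asW5_8

end KC.E2
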