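import Pool.Agent.Helper13.KC.E2.Tabs
import Pool.Agent.Helper25.K4.Parts
import Pool.Agent.Helper13.KC.E2.W5_9_0

set_option autoImplicit false
set_option maxRecDepth 100000

namespace KC.E2

open KC

/-- The factor. -/
def W5_9 : List Nat :=
  [W5_9_r0, W5_9_r1, W5_9_r2, W5_9_r3, W5_9_r4, W5_9_r5, W5_9_r6, W5_9_r7, W5_9_r8, W5_9_r9, W5_9_r10, W5_9_r11, W5_9_r12, W5_9_r13, W5_9_r14, W5_9_r15, W5_9_r16, W5_9_r17, W5_9_r18, W5_9_r19, W5_9_r20, W5_9_r21, W5_9_r22, W5_9_r23, W5_9_r24, W5_9_r25, W5_9_r26, W5_9_r27, W5_9_r28, W5_9_r29, W5_9_r30, W5_9_r31, W5_9_r32, W5_9_r33, W5_9_r34, W5_9_r35, W5_9_r36, W5_9_r37, W5_9_r38, W5_9_r39, W5_9_r40, W5_9_r41, W5_9_r42, W5_9_r43, W5_9_r44, W5_9_r45, W5_9_r46, W5_9_r47, W5_9_r48, W5_9_r49, W5_9_r50, W5_9_r51, W5_9_r52, W5_9_r53, W5_9_r54, W5_9_r55, W5_9_r56, W5_9_r57, W5_9_r58, W5_9_r59, W5_9_r60, W5_9_r61, W5_9_r62, W5_9_r63, W5_9_r64, W5_9_r65, W5_9_r66,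 W5_9_r67, W5_9_r68, W5_9_r69, W5_9_r70, W5_9_r71, W5_9_r72, W5_9_r73, W5_9_r74, W5_9_r75, W5_9_r76, W5_9_r77, W5_9_r78, W5_9_r79, W5_9_r80, W5_9_r81, W5_9_r82, W5_9_r83, W5_9_r84, W5_9_r85, W5_9_r86, W5_9_r87, W5_9_r88, W5_9_r89, W5_9_r90, W5_9_r91, W5_9_r92, W5_9_r93]

/-- The parameters. -/
def pW5_9 : PP := ⟨96, 94, 4294967296, 140737488355328, 34359738368, 37, 9769933968782, 48, 36⟩

/-- The rows. -/
noncomputable def qW5_9 (f : Nat) : Nat := C5.QT.get (Nat.add (C5.rb 9) f)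

theorem okW5_9 : pW5_9.ok (W5_9).length = true := by decide +kernel

theorem facW5_9 : facCk pW5_9 W5_9 = true := by decide +kernel

theorem bW5_9_0 : blkCk pW5_9 W5_9 qW5_9 (List.range' 0 16) = true := by decide +kernel

theorem bW5_9_16 : blkCk pW5_9 W5_9 qW5_9 (List.range' 16 16) = true := by decide +kernel

theorem bW5_9_32 : blkCk pW5_9 W5_9 qW5_9 (List.range' 32 16) = true := by decide +kernel

theorem bW5_9_48 : blkCk pW5_9 W5_9 qW5_9 (List.range' 48 16) = true := by decide +kernel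

theorem bW5_9_64 : blkCk pW5_9 W5_9 qW5_9 (List.range' 64 16) = true := by decide +kernel

theorem bW5_9_80 : blkCk pW5_9 W5_9 qW5_9 (List.range' 80 14) = true := by decide +kernel

theorem sW5_9_0 : symCk 96 94 qW5_9 (List.range' 0 16) = true := by decide +kernel

theorem sW5_9_16 : symCk 96 94 qW5_9 (List.range' 16 16) = true := by decide +kernel

theorem sW5_9_32 : symCk 96 94 qW5_9 (List.range' 32 16) = true := by decide +kernel

theorem sW5_9_48 : symCk 96 94 qW5_9 (List.range' 48 16) = true := by decide +kernel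

theorem sW5_9_64 : symCk 96 94 qW5_9 (List.range' 64 16) = true := by decide +kernel

theorem sW5_9_80 : symCk 96 94 qW5_9 (List.range' 80 14) = true := by decide +kernel

theorem abW5_9 : ∀ f < 94, ∃ fs : List Nat, f ∈ fs ∧ blkCk pW5_9 W5_9 qW5_9 fs = true := by
  intro f hf
  by_cases h0 : f < 16
  · exact ⟨_, List.mem_range'_1.2 ⟨by omega, by omega⟩, bW5_9_0⟩
  by_cases h1 : f < 32
  · exact ⟨_, List.mem_range'_1.2 ⟨by omega, by omega⟩, bW5_9_16⟩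
  by_cases h2 : f < 48
  · exact ⟨_, List.mem_range'_1.2 ⟨by omega, by omega⟩, bW5_9_32⟩
  by_cases h3 : f < 64
  · exact ⟨_, List.mem_range'_1.2 ⟨by omega, by omega⟩, bW5_9_48⟩
  by_cases h4 : f < 80
  · exact ⟨_, List.mem_range'_1.2 ⟨by omega, by omega⟩, bW5_9_64⟩
  exact ⟨_, List.mem_range'_1.2 ⟨by omega, by omega⟩, bW5_9_80⟩

theorem asW5_9 : ∀ f < 94, ∃ fs : List Nat, f ∈ fs ∧ symCk 96 94 qW5_9 fs = true := by
  intro f hf
  by_cases h0 : f < 16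
  · exact ⟨_, List.mem_range'_1.2 ⟨by omega, by omega⟩, sW5_9_0⟩
  by_cases h1 : f < 32
  · exact ⟨_, List.mem_range'_1.2 ⟨by omega, by omega⟩, sW5_9_16⟩
  by_cases h2 : f < 48
  · exact ⟨_, List.mem_range'_1.2 ⟨by omega, by omega⟩, sW5_9_32⟩
  by_cases h3 : f < 64
  · exact ⟨_, List.mem_range'_1.2 ⟨by omega, by omega⟩, sW5_9_48⟩
  by_cases h4 : f < 80
  · exact ⟨_, List.mem_range'_1.2 ⟨by omega, by omega⟩, sW5_9_64⟩
  exact ⟨_, List.mem_range'_1.2 ⟨by omega, by omega⟩, sW5_9_80⟩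

theorem nfW5_9 : C5.nf 9 = 94 := by decide +kernel

theorem offW5_9 : C5.OFF = 140737488355328 := by decide +kernel

theorem psdW5_9 : PsdT C5 9 := by
  refine psdT_of_check0 (T := C5) (t := 9) (p := pW5_9) (rows := W5_9) rfl nfW5_9.symm offW5_9.symm okW5_9 facW5_9 ?_
  exact abW5_9

theorem symW5_9 : ∀ f < C5.nf 9, ∀ g < C5.nf 9, C5.qe 9 f g = C5.qe 9 g f := by
  refine symT_of_check (T := C5) (t := 9) ?_
  rw [nfW5_9]
  exact asW5_9

end KC.E2
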