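import Pool.Agent.Helper13.KC.E2.P5_0
import Pool.Agent.Helper13.KC.E2.P5_1
import Pool.Agent.Helper13.KC.E2.P5_2
import Pool.Agent.Helper13.KC.E2.P5_3
import Pool.Agent.Helper13.KC.E2.P5_4
import Pool.Agent.Helper13.KC.E2.P5_5
import Pool.Agent.Helper13.KC.E2.P5_6
import Pool.Agent.Helper13.KC.E2.P5_7
import Pool.Agent.Helper13.KC.E2.P5_8
import Pool.Agent.Helper13.KC.E2.P5_9
import Pool.Agent.Helper13.KC.E2.P5_10
import Pool.Agent.Helper13.KC.E2.P3_0
import Pool.Agent.Helper13.KC.E2.P3_1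
import Pool.Agent.Helper13.KC.E2.P1_0

set_option autoImplicit false
set_option maxRecDepth 100000

namespace KC.E2

open KC

theorem psd5 : ∀ t < 11, PsdT C5 t := by
  intro t ht
  have : t = 0 ∨ t = 1 ∨ t = 2 ∨ t = 3 ∨ t = 4 ∨ t = 5 ∨ t = 6 ∨ t = 7 ∨ t = 8 ∨ t = 9 ∨
    t = 10 := by omega
  rcases this with rfl | rfl | rfl | rfl | rfl | rfl | rfl | rfl | rfl | rfl | rfl
  · exact psdW5_0
  · exact psdW5_1
  · exact psdW5_2
  · exact psdW5_3
  · exact psdW5_4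
  · exact psdW5_5
  · exact psdW5_6
  · exact psdW5_7
  · exact psdW5_8
  · exact psdW5_9
  · exact psdW5_10

theorem psd3 : ∀ t < 2, PsdT C3 t := by
  intro t ht
  have : t = 0 ∨ t = 1 := by omega
  rcases this with rfl | rfl
  · exact psdW3_0
  · exact psdW3_1

theorem psd1 : PsdT C1 0 := psdW1_0

theorem sym5 : ∀ t < 11, ∀ f < T5base.nf t, ∀ g < T5base.nf t, C5.qe t f g = C5.qe t g f := by
  intro t ht
  have : t = 0 ∨ t = 1 ∨ t = 2 ∨ t = 3 ∨ t = 4 ∨ t = 5 ∨ t = 6 ∨ t = 7 ∨ t = 8 ∨ t = 9 ∨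
    t = 10 := by omega
  rcases this with rfl | rfl | rfl | rfl | rfl | rfl | rfl | rfl | rfl | rfl | rfl
  · exact symW5_0
  · exact symW5_1
  · exact symW5_2
  · exact symW5_3
  · exact symW5_4
  · exact symW5_5
  · exact symW5_6
  · exact symW5_7
  · exact symW5_8
  · exact symW5_9
  · exact symW5_10

theorem sym3 : ∀ t < 2, ∀ f < T3base.nf t, ∀ g < T3base.nf t, C3.qe t f g = C3.qe t g f := by
  intro t ht
  have : t = 0 ∨ t = 1 := by omega
  rcases this with rfl | rfl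
  · exact symW3_0
  · exact symW3_1

end KC.E2
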