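import Pool.Agent.Helper13.KC.E2.Good
import Pool.Agent.Helper13.KC.E2.Psd
import Pool.Agent.Helper13.KC.E2f.Fin
import Pool.Agent.Helper35.KT.T7

set_option autoImplicit false
set_option maxRecDepth 100000

namespace KC.E2

open KC KF

theorem pa_eq : E2VT.TV.PA = 7 := by decide +kernel

theorem pb_eq : E2VT.TV.PB = 2 := by decide +kernel

theorem da_eq : E2D.A = 7 := by decide +kernel

theorem db_eq : E2D.B = 2 := by decide +kernel

theorem tfS : TF (2 / 7) KC.E2f.S := by
  have g5 := good5 sym5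
  have g3 := good3 sym3
  have h := tf_all (p := 2 / 7) (by norm_num) g5 psd5 g3 psd3 good1 psd1 E2VT.good E2VT.gG
    (by rw [pa_eq]; norm_num) (by rw [pa_eq, pb_eq]; norm_num) E2D_good
    (by rw [da_eq, db_eq]; norm_num)
  exact h.congr fun m => rfl

/-- The thinned functional is negative near the optimum. -/
theorem main : ∃ θ : ℝ, 0 < θ ∧ ∀ (n : ℕ) (E : Fin n → Fin n → Fin n → Bool) (w : Fin n → ℝ),
    Opt E w → L - θ < dens E w → (2 / 7 : ℝ) < dens E w →
    Ev 7 w (fun φ => KT.Th (KT.pe E ((2 / 7 : ℝ) / dens E w) φ)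
      (KT.FT (6 / 7) (1 / 10) (59 / 100000))) < 0 := by
  refine thin_FT (p := 2 / 7) (A := 42000000000) (B := 36000000000) (C := 2100000000)
    (D := 24780000) (δ := 642810) (by norm_num) (by norm_num) (by norm_num) (by norm_num)
    (by norm_num) (by norm_num) tfS fun m hm => ?_
  have h := KC.E2f.hpt (good5 sym5) (good3 sym3) good1 E2D_good m hm
  push_cast at h ⊢
  exact h

end KC.E2
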