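import Pool.Agent.Helper13.KC.E2.Tabs
import Pool.Agent.Helper25.K4.Parts
import Pool.Agent.Helper13.KC.E2.W3_1_0

set_option autoImplicit false
set_option maxRecDepth 100000

namespace KC.E2

open KC

/-- The factor. -/
def W3_1 : List Nat :=
  [W3_1_r0, W3_1_r1, W3_1_r2, W3_1_r3, W3_1_r4, W3_1_r5, W3_1_r6, W3_1_r7, W3_1_r8, W3_1_r9, W3_1_r10, W3_1_r11, W3_1_r12, W3_1_r13, W3_1_r14, W3_1_r15, W3_1_r16, W3_1_r17, W3_1_r18, W3_1_r19, W3_1_r20, W3_1_r21, W3_1_r22, W3_1_r23, W3_1_r24, W3_1_r25, W3_1_r26, W3_1_r27, W3_1_r28, W3_1_r29, W3_1_r30, W3_1_r31, W3_1_r32, W3_1_r33, W3_1_r34, W3_1_r35, W3_1_r36, W3_1_r37, W3_1_r38, W3_1_r39, W3_1_r40, W3_1_r41, W3_1_r42, W3_1_r43, W3_1_r44, W3_1_r45, W3_1_r46]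

/-- The parameters. -/
def pW3_1 : PP := ⟨96, 47, 1073741824, 140737488355328, 17179869184, 35, 1287819095887, 48, 35⟩

/-- The rows. -/
noncomputable def qW3_1 (f : Nat) : Nat := C3.QT.get (Nat.add (C3.rb 1) f)

theorem okW3_1 : pW3_1.ok (W3_1).length = true := by decide +kernel

theorem facW3_1 : facCk pW3_1 W3_1 = true := by decide +kernel

theorem bW3_1_0 : blkCk pW3_1 W3_1 qW3_1 (List.range' 0 16) = true := by decide +kernel

theorem bW3_1_16 : blkCk pW3_1 W3_1 qW3_1 (List.range' 16 16) = true := by decide +kernel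

theorem bW3_1_32 : blkCk pW3_1 W3_1 qW3_1 (List.range' 32 15) = true := by decide +kernel

theorem sW3_1_0 : symCk 96 47 qW3_1 (List.range' 0 16) = true := by decide +kernel

theorem sW3_1_16 : symCk 96 47 qW3_1 (List.range' 16 16) = true := by decide +kernel

theorem sW3_1_32 : symCk 96 47 qW3_1 (List.range' 32 15) = true := by decide +kernel

theorem abW3_1 : ∀ f < 47, ∃ fs : List Nat, f ∈ fs ∧ blkCk pW3_1 W3_1 qW3_1 fs = true := by
  intro f hf
  by_cases h0 : f < 16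
  · exact ⟨_, List.mem_range'_1.2 ⟨by omega, by omega⟩, bW3_1_0⟩
  by_cases h1 : f < 32
  · exact ⟨_, List.mem_range'_1.2 ⟨by omega, by omega⟩, bW3_1_16⟩
  exact ⟨_, List.mem_range'_1.2 ⟨by omega, by omega⟩, bW3_1_32⟩

theorem asW3_1 : ∀ f < 47, ∃ fs : List Nat, f ∈ fs ∧ symCk 96 47 qW3_1 fs = true := by
  intro f hf
  by_cases h0 : f < 16
  · exact ⟨_, List.mem_range'_1.2 ⟨by omega, by omega⟩, sW3_1_0⟩
  by_cases h1 : f < 32
  · exact ⟨_, List.mem_range'_1.2 ⟨by omega, by omega⟩, sW3_1_16⟩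
  exact ⟨_, List.mem_range'_1.2 ⟨by omega, by omega⟩, sW3_1_32⟩

theorem nfW3_1 : C3.nf 1 = 47 := by decide +kernel

theorem offW3_1 : C3.OFF = 140737488355328 := by decide +kernel

theorem psdW3_1 : PsdT C3 1 := by
  refine psdT_of_check0 (T := C3) (t := 1) (p := pW3_1) (rows := W3_1) rfl nfW3_1.symm offW3_1.symm okW3_1 facW3_1 ?_
  exact abW3_1

theorem symW3_1 : ∀ f < C3.nf 1, ∀ g < C3.nf 1, C3.qe 1 f g = C3.qe 1 g f := by
  refine symT_of_check (T := C3) (t := 1) ?_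
  rw [nfW3_1]
  exact asW3_1

end KC.E2
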