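import Pool.Agent.Helper13.KC.E2.Tabs
import Pool.Agent.Helper25.K4.Parts
import Pool.Agent.Helper13.KC.E2.W5_0_0
import Pool.Agent.Helper13.KC.E2.W5_0_1
import Pool.Agent.Helper13.KC.E2.W5_0_2
import Pool.Agent.Helper13.KC.E2.W5_0_3

set_option autoImplicit false
set_option maxRecDepth 100000

namespace KC.E2

open KC

/-- The factor. -/
def W5_0 : List Nat :=
  [W5_0_r0, W5_0_r1, W5_0_r2, W5_0_r3, W5_0_r4, W5_0_r5, W5_0_r6, W5_0_r7, W5_0_r8, W5_0_r9, W5_0_r10, W5_0_r11, W5_0_r12, W5_0_r13, W5_0_r14, W5_0_r15, W5_0_r16, W5_0_r17, W5_0_r18, W5_0_r19, W5_0_r20, W5_0_r21, W5_0_r22, W5_0_r23, W5_0_r24, W5_0_r25, W5_0_r26, W5_0_r27, W5_0_r28, W5_0_r29, W5_0_r30, W5_0_r31, W5_0_r32, W5_0_r33, W5_0_r34, W5_0_r35, W5_0_r36, W5_0_r37, W5_0_r38, W5_0_r39, W5_0_r40, W5_0_r41, W5_0_r42, W5_0_r43, W5_0_r44, W5_0_r45, W5_0_r46, W5_0_r47, W5_0_r48, W5_0_r49, W5_0_r50, W5_0_r51, W5_0_r52, W5_0_r53, W5_0_r54, W5_0_r55,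 W5_0_r56, W5_0_r57, W5_0_r58, W5_0_r59, W5_0_r60, W5_0_r61, W5_0_r62, W5_0_r63, W5_0_r64, W5_0_r65, W5_0_r66, W5_0_r67, W5_0_r68, W5_0_r69, W5_0_r70, W5_0_r71, W5_0_r72, W5_0_r73, W5_0_r74, W5_0_r75, W5_0_r76, W5_0_r77, W5_0_r78, W5_0_r79, W5_0_r80, W5_0_r81, W5_0_r82, W5_0_r83, W5_0_r84, W5_0_r85, W5_0_r86, W5_0_r87, W5_0_r88, W5_0_r89, W5_0_r90, W5_0_r91, W5_0_r92, W5_0_r93, W5_0_r94, W5_0_r95, W5_0_r96, W5_0_r97, W5_0_r98, W5_0_r99, W5_0_r100, W5_0_r101, W5_0_r102, W5_0_r103, W5_0_r104, W5_0_r105, W5_0_r106, W5_0_r107, W5_0_r108, W5_0_r109, W5_0_r110, W5_0_r111, W5_0_r112, W5_0_r113, W5_0_r114, W5_0_r115, W5_0_r116, W5_0_r117, W5_0_r118, W5_0_r119, W5_0_r120, W5_0_r121, W5_0_r122, W5_0_r123, W5_0_r124, W5_0_r125, W5_0_r126, W5_0_r127, W5_0_r128, W5_0_r129, W5_0_r130, W5_0_r131, W5_0_r132, W5_0_r133, W5_0_r134, W5_0_r135, W5_0_r136, W5_0_r137, W5_0_r138, W5_0_r139, W5_0_r140, W5_0_r141, W5_0_r142, W5_0_r143,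 W5_0_r144, W5_0_r145, W5_0_r146, W5_0_r147, W5_0_r148, W5_0_r149, W5_0_r150, W5_0_r151, W5_0_r152, W5_0_r153, W5_0_r154, W5_0_r155, W5_0_r156, W5_0_r157, W5_0_r158, W5_0_r159, W5_0_r160, W5_0_r161, W5_0_r162, W5_0_r163, W5_0_r164, W5_0_r165, W5_0_r166, W5_0_r167, W5_0_r168, W5_0_r169, W5_0_r170, W5_0_r171, W5_0_r172, W5_0_r173, W5_0_r174, W5_0_r175, W5_0_r176, W5_0_r177, W5_0_r178, W5_0_r179, W5_0_r180, W5_0_r181, W5_0_r182, W5_0_r183, W5_0_r184, W5_0_r185, W5_0_r186, W5_0_r187, W5_0_r188, W5_0_r189, W5_0_r190, W5_0_r191, W5_0_r192, W5_0_r193, W5_0_r194, W5_0_r195, W5_0_r196, W5_0_r197, W5_0_r198, W5_0_r199, W5_0_r200, W5_0_r201, W5_0_r202, W5_0_r203, W5_0_r204, W5_0_r205, W5_0_r206, W5_0_r207, W5_0_r208, W5_0_r209, W5_0_r210, W5_0_r211, W5_0_r212, W5_0_r213, W5_0_r214, W5_0_r215, W5_0_r216, W5_0_r217, W5_0_r218, W5_0_r219, W5_0_r220, W5_0_r221, W5_0_r222, W5_0_r223, W5_0_r224, W5_0_r225, W5_0_r226, W5_0_r227,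 W5_0_r228, W5_0_r229, W5_0_r230, W5_0_r231, W5_0_r232, W5_0_r233, W5_0_r234, W5_0_r235, W5_0_r236, W5_0_r237, W5_0_r238, W5_0_r239, W5_0_r240, W5_0_r241, W5_0_r242, W5_0_r243, W5_0_r244, W5_0_r245, W5_0_r246, W5_0_r247, W5_0_r248, W5_0_r249, W5_0_r250, W5_0_r251, W5_0_r252, W5_0_r253, W5_0_r254, W5_0_r255, W5_0_r256, W5_0_r257, W5_0_r258, W5_0_r259, W5_0_r260, W5_0_r261, W5_0_r262, W5_0_r263, W5_0_r264, W5_0_r265, W5_0_r266, W5_0_r267, W5_0_r268, W5_0_r269, W5_0_r270, W5_0_r271, W5_0_r272, W5_0_r273, W5_0_r274, W5_0_r275, W5_0_r276, W5_0_r277, W5_0_r278, W5_0_r279, W5_0_r280, W5_0_r281, W5_0_r282, W5_0_r283, W5_0_r284, W5_0_r285, W5_0_r286, W5_0_r287, W5_0_r288, W5_0_r289, W5_0_r290, W5_0_r291, W5_0_r292, W5_0_r293, W5_0_r294, W5_0_r295, W5_0_r296, W5_0_r297, W5_0_r298, W5_0_r299, W5_0_r300, W5_0_r301, W5_0_r302, W5_0_r303, W5_0_r304, W5_0_r305, W5_0_r306, W5_0_r307, W5_0_r308, W5_0_r309, W5_0_r310, W5_0_r311,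 W5_0_r312, W5_0_r313, W5_0_r314, W5_0_r315, W5_0_r316, W5_0_r317, W5_0_r318, W5_0_r319, W5_0_r320, W5_0_r321, W5_0_r322, W5_0_r323, W5_0_r324, W5_0_r325, W5_0_r326, W5_0_r327, W5_0_r328, W5_0_r329, W5_0_r330, W5_0_r331, W5_0_r332, W5_0_r333, W5_0_r334, W5_0_r335, W5_0_r336, W5_0_r337, W5_0_r338, W5_0_r339, W5_0_r340, W5_0_r341, W5_0_r342, W5_0_r343, W5_0_r344, W5_0_r345, W5_0_r346, W5_0_r347, W5_0_r348, W5_0_r349, W5_0_r350, W5_0_r351, W5_0_r352, W5_0_r353, W5_0_r354, W5_0_r355, W5_0_r356, W5_0_r357, W5_0_r358, W5_0_r359, W5_0_r360, W5_0_r361, W5_0_r362, W5_0_r363, W5_0_r364, W5_0_r365, W5_0_r366, W5_0_r367, W5_0_r368, W5_0_r369, W5_0_r370, W5_0_r371, W5_0_r372, W5_0_r373, W5_0_r374, W5_0_r375, W5_0_r376, W5_0_r377, W5_0_r378, W5_0_r379, W5_0_r380, W5_0_r381, W5_0_r382, W5_0_r383, W5_0_r384, W5_0_r385, W5_0_r386, W5_0_r387]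

/-- The parameters. -/
def pW5_0 : PP := ⟨96, 388, 68719476736, 140737488355328, 137438953472, 38, 92549281716346, 48, 38⟩

/-- The rows. -/
noncomputable def qW5_0 (f : Nat) : Nat := C5.QT.get (Nat.add (C5.rb 0) f)

theorem okW5_0 : pW5_0.ok (W5_0).length = true := by decide +kernel

theorem facW5_0 : facCk pW5_0 W5_0 = true := by decide +kernel

theorem bW5_0_0 : blkCk pW5_0 W5_0 qW5_0 (List.range' 0 16) = true := by decide +kernel

theorem bW5_0_16 : blkCk pW5_0 W5_0 qW5_0 (List.range' 16 16) = true := by decide +kernel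

theorem bW5_0_32 : blkCk pW5_0 W5_0 qW5_0 (List.range' 32 16) = true := by decide +kernel

theorem bW5_0_48 : blkCk pW5_0 W5_0 qW5_0 (List.range' 48 16) = true := by decide +kernel

theorem bW5_0_64 : blkCk pW5_0 W5_0 qW5_0 (List.range' 64 16) = true := by decide +kernel

theorem bW5_0_80 : blkCk pW5_0 W5_0 qW5_0 (List.range' 80 16) = true := by decide +kernel

theorem bW5_0_96 : blkCk pW5_0 W5_0 qW5_0 (List.range' 96 16) = true := by decide +kernel

theorem bW5_0_112 : blkCk pW5_0 W5_0 qW5_0 (List.range' 112 16) = true := by decide +kernel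

theorem bW5_0_128 : blkCk pW5_0 W5_0 qW5_0 (List.range' 128 16) = true := by decide +kernel

theorem bW5_0_144 : blkCk pW5_0 W5_0 qW5_0 (List.range' 144 16) = true := by decide +kernel

theorem bW5_0_160 : blkCk pW5_0 W5_0 qW5_0 (List.range' 160 16) = true := by decide +kernel

theorem bW5_0_176 : blkCk pW5_0 W5_0 qW5_0 (List.range' 176 16) = true := by decide +kernel

theorem bW5_0_192 : blkCk pW5_0 W5_0 qW5_0 (List.range' 192 16) = true := by decide +kernel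

theorem bW5_0_208 : blkCk pW5_0 W5_0 qW5_0 (List.range' 208 16) = true := by decide +kernel

theorem bW5_0_224 : blkCk pW5_0 W5_0 qW5_0 (List.range' 224 16) = true := by decide +kernel

theorem bW5_0_240 : blkCk pW5_0 W5_0 qW5_0 (List.range' 240 16) = true := by decide +kernel

theorem bW5_0_256 : blkCk pW5_0 W5_0 qW5_0 (List.range' 256 16) = true := by decide +kernel

theorem bW5_0_272 : blkCk pW5_0 W5_0 qW5_0 (List.range' 272 16) = true := by decide +kernel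

theorem bW5_0_288 : blkCk pW5_0 W5_0 qW5_0 (List.range' 288 16) = true := by decide +kernel

theorem bW5_0_304 : blkCk pW5_0 W5_0 qW5_0 (List.range' 304 16) = true := by decide +kernel

theorem bW5_0_320 : blkCk pW5_0 W5_0 qW5_0 (List.range' 320 16) = true := by decide +kernel

theorem bW5_0_336 : blkCk pW5_0 W5_0 qW5_0 (List.range' 336 16) = true := by decide +kernel

theorem bW5_0_352 : blkCk pW5_0 W5_0 qW5_0 (List.range' 352 16) = true := by decide +kernel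

theorem bW5_0_368 : blkCk pW5_0 W5_0 qW5_0 (List.range' 368 16) = true := by decide +kernel

theorem bW5_0_384 : blkCk pW5_0 W5_0 qW5_0 (List.range' 384 4) = true := by decide +kernel

theorem sW5_0_0 : symCk 96 388 qW5_0 (List.range' 0 16) = true := by decide +kernel

theorem sW5_0_16 : symCk 96 388 qW5_0 (List.range' 16 16) = true := by decide +kernel

theorem sW5_0_32 : symCk 96 388 qW5_0 (List.range' 32 16) = true := by decide +kernel

theorem sW5_0_48 : symCk 96 388 qW5_0 (List.range' 48 16) = true := by decide +kernel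

theorem sW5_0_64 : symCk 96 388 qW5_0 (List.range' 64 16) = true := by decide +kernel

theorem sW5_0_80 : symCk 96 388 qW5_0 (List.range' 80 16) = true := by decide +kernel

theorem sW5_0_96 : symCk 96 388 qW5_0 (List.range' 96 16) = true := by decide +kernel

theorem sW5_0_112 : symCk 96 388 qW5_0 (List.range' 112 16) = true := by decide +kernel

theorem sW5_0_128 : symCk 96 388 qW5_0 (List.range' 128 16) = true := by decide +kernel

theorem sW5_0_144 : symCk 96 388 qW5_0 (List.range' 144 16) = true := by decide +kernel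

theorem sW5_0_160 : symCk 96 388 qW5_0 (List.range' 160 16) = true := by decide +kernel

theorem sW5_0_176 : symCk 96 388 qW5_0 (List.range' 176 16) = true := by decide +kernel

theorem sW5_0_192 : symCk 96 388 qW5_0 (List.range' 192 16) = true := by decide +kernel

theorem sW5_0_208 : symCk 96 388 qW5_0 (List.range' 208 16) = true := by decide +kernel

theorem sW5_0_224 : symCk 96 388 qW5_0 (List.range' 224 16) = true := by decide +kernel

theorem sW5_0_240 : symCk 96 388 qW5_0 (List.range' 240 16) = true := by decide +kernel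

theorem sW5_0_256 : symCk 96 388 qW5_0 (List.range' 256 16) = true := by decide +kernel

theorem sW5_0_272 : symCk 96 388 qW5_0 (List.range' 272 16) = true := by decide +kernel

theorem sW5_0_288 : symCk 96 388 qW5_0 (List.range' 288 16) = true := by decide +kernel

theorem sW5_0_304 : symCk 96 388 qW5_0 (List.range' 304 16) = true := by decide +kernel

theorem sW5_0_320 : symCk 96 388 qW5_0 (List.range' 320 16) = true := by decide +kernel

theorem sW5_0_336 : symCk 96 388 qW5_0 (List.range' 336 16) = true := by decide +kernel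

theorem sW5_0_352 : symCk 96 388 qW5_0 (List.range' 352 16) = true := by decide +kernel

theorem sW5_0_368 : symCk 96 388 qW5_0 (List.range' 368 16) = true := by decide +kernel

theorem sW5_0_384 : symCk 96 388 qW5_0 (List.range' 384 4) = true := by decide +kernel

theorem abW5_0 : ∀ f < 388, ∃ fs : List Nat, f ∈ fs ∧ blkCk pW5_0 W5_0 qW5_0 fs = true := by
  intro f hf
  by_cases h0 : f < 16
  · exact ⟨_, List.mem_range'_1.2 ⟨by omega, by omega⟩, bW5_0_0⟩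
  by_cases h1 : f < 32
  · exact ⟨_, List.mem_range'_1.2 ⟨by omega, by omega⟩, bW5_0_16⟩
  by_cases h2 : f < 48
  · exact ⟨_, List.mem_range'_1.2 ⟨by omega, by omega⟩, bW5_0_32⟩
  by_cases h3 : f < 64
  · exact ⟨_, List.mem_range'_1.2 ⟨by omega, by omega⟩, bW5_0_48⟩
  by_cases h4 : f < 80
  · exact ⟨_, List.mem_range'_1.2 ⟨by omega, by omega⟩, bW5_0_64⟩
  by_cases h5 : f < 96
  · exact ⟨_, List.mem_range'_1.2 ⟨by omega, by omega⟩, bW5_0_80⟩
  by_cases h6 : f < 112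
  · exact ⟨_, List.mem_range'_1.2 ⟨by omega, by omega⟩, bW5_0_96⟩
  by_cases h7 : f < 128
  · exact ⟨_, List.mem_range'_1.2 ⟨by omega, by omega⟩, bW5_0_112⟩
  by_cases h8 : f < 144
  · exact ⟨_, List.mem_range'_1.2 ⟨by omega, by omega⟩, bW5_0_128⟩
  by_cases h9 : f < 160
  · exact ⟨_, List.mem_range'_1.2 ⟨by omega, by omega⟩, bW5_0_144⟩
  by_cases h10 : f < 176
  · exact ⟨_, List.mem_range'_1.2 ⟨by omega, by omega⟩, bW5_0_160⟩
  by_cases h11 : f < 192
  · exact ⟨_, List.mem_range'_1.2 ⟨by omega, by omega⟩, bW5_0_176⟩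
  by_cases h12 : f < 208
  · exact ⟨_, List.mem_range'_1.2 ⟨by omega, by omega⟩, bW5_0_192⟩
  by_cases h13 : f < 224
  · exact ⟨_, List.mem_range'_1.2 ⟨by omega, by omega⟩, bW5_0_208⟩
  by_cases h14 : f < 240
  · exact ⟨_, List.mem_range'_1.2 ⟨by omega, by omega⟩, bW5_0_224⟩
  by_cases h15 : f < 256
  · exact ⟨_, List.mem_range'_1.2 ⟨by omega, by omega⟩, bW5_0_240⟩
  by_cases h16 : f < 272
  · exact ⟨_, List.mem_range'_1.2 ⟨by omega, by omega⟩, bW5_0_256⟩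
  by_cases h17 : f < 288
  · exact ⟨_, List.mem_range'_1.2 ⟨by omega, by omega⟩, bW5_0_272⟩
  by_cases h18 : f < 304
  · exact ⟨_, List.mem_range'_1.2 ⟨by omega, by omega⟩, bW5_0_288⟩
  by_cases h19 : f < 320
  · exact ⟨_, List.mem_range'_1.2 ⟨by omega, by omega⟩, bW5_0_304⟩
  by_cases h20 : f < 336
  · exact ⟨_, List.mem_range'_1.2 ⟨by omega, by omega⟩, bW5_0_320⟩
  by_cases h21 : f < 352
  · exact ⟨_, List.mem_range'_1.2 ⟨by omega, by omega⟩, bW5_0_336⟩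
  by_cases h22 : f < 368
  · exact ⟨_, List.mem_range'_1.2 ⟨by omega, by omega⟩, bW5_0_352⟩
  by_cases h23 : f < 384
  · exact ⟨_, List.mem_range'_1.2 ⟨by omega, by omega⟩, bW5_0_368⟩
  exact ⟨_, List.mem_range'_1.2 ⟨by omega, by omega⟩, bW5_0_384⟩

theorem asW5_0 : ∀ f < 388, ∃ fs : List Nat, f ∈ fs ∧ symCk 96 388 qW5_0 fs = true := by
  intro f hf
  by_cases h0 : f < 16
  · exact ⟨_, List.mem_range'_1.2 ⟨by omega, by omega⟩, sW5_0_0⟩
  by_cases h1 : f < 32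
  · exact ⟨_, List.mem_range'_1.2 ⟨by omega, by omega⟩, sW5_0_16⟩
  by_cases h2 : f < 48
  · exact ⟨_, List.mem_range'_1.2 ⟨by omega, by omega⟩, sW5_0_32⟩
  by_cases h3 : f < 64
  · exact ⟨_, List.mem_range'_1.2 ⟨by omega, by omega⟩, sW5_0_48⟩
  by_cases h4 : f < 80
  · exact ⟨_, List.mem_range'_1.2 ⟨by omega, by omega⟩, sW5_0_64⟩
  by_cases h5 : f < 96
  · exact ⟨_, List.mem_range'_1.2 ⟨by omega, by omega⟩, sW5_0_80⟩
  by_cases h6 : f < 112
  · exact ⟨_, List.mem_range'_1.2 ⟨by omega, by omega⟩, sW5_0_96⟩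
  by_cases h7 : f < 128
  · exact ⟨_, List.mem_range'_1.2 ⟨by omega, by omega⟩, sW5_0_112⟩
  by_cases h8 : f < 144
  · exact ⟨_, List.mem_range'_1.2 ⟨by omega, by omega⟩, sW5_0_128⟩
  by_cases h9 : f < 160
  · exact ⟨_, List.mem_range'_1.2 ⟨by omega, by omega⟩, sW5_0_144⟩
  by_cases h10 : f < 176
  · exact ⟨_, List.mem_range'_1.2 ⟨by omega, by omega⟩, sW5_0_160⟩
  by_cases h11 : f < 192
  · exact ⟨_, List.mem_range'_1.2 ⟨by omega, by omega⟩, sW5_0_176⟩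
  by_cases h12 : f < 208
  · exact ⟨_, List.mem_range'_1.2 ⟨by omega, by omega⟩, sW5_0_192⟩
  by_cases h13 : f < 224
  · exact ⟨_, List.mem_range'_1.2 ⟨by omega, by omega⟩, sW5_0_208⟩
  by_cases h14 : f < 240
  · exact ⟨_, List.mem_range'_1.2 ⟨by omega, by omega⟩, sW5_0_224⟩
  by_cases h15 : f < 256
  · exact ⟨_, List.mem_range'_1.2 ⟨by omega, by omega⟩, sW5_0_240⟩
  by_cases h16 : f < 272
  · exact ⟨_, List.mem_range'_1.2 ⟨by omega, by omega⟩, sW5_0_256⟩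
  by_cases h17 : f < 288
  · exact ⟨_, List.mem_range'_1.2 ⟨by omega, by omega⟩, sW5_0_272⟩
  by_cases h18 : f < 304
  · exact ⟨_, List.mem_range'_1.2 ⟨by omega, by omega⟩, sW5_0_288⟩
  by_cases h19 : f < 320
  · exact ⟨_, List.mem_range'_1.2 ⟨by omega, by omega⟩, sW5_0_304⟩
  by_cases h20 : f < 336
  · exact ⟨_, List.mem_range'_1.2 ⟨by omega, by omega⟩, sW5_0_320⟩
  by_cases h21 : f < 352
  · exact ⟨_, List.mem_range'_1.2 ⟨by omega, by omega⟩, sW5_0_336⟩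
  by_cases h22 : f < 368
  · exact ⟨_, List.mem_range'_1.2 ⟨by omega, by omega⟩, sW5_0_352⟩
  by_cases h23 : f < 384
  · exact ⟨_, List.mem_range'_1.2 ⟨by omega, by omega⟩, sW5_0_368⟩
  exact ⟨_, List.mem_range'_1.2 ⟨by omega, by omega⟩, sW5_0_384⟩

theorem nfW5_0 : C5.nf 0 = 388 := by decide +kernel

theorem offW5_0 : C5.OFF = 140737488355328 := by decide +kernel

theorem psdW5_0 : PsdT C5 0 := by
  refine psdT_of_check0 (T := C5) (t := 0) (p := pW5_0) (rows := W5_0) rfl nfW5_0.symm offW5_0.symm okW5_0 facW5_0 ?_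
  exact abW5_0

theorem symW5_0 : ∀ f < C5.nf 0, ∀ g < C5.nf 0, C5.qe 0 f g = C5.qe 0 g f := by
  refine symT_of_check (T := C5) (t := 0) ?_
  rw [nfW5_0]
  exact asW5_0

end KC.E2
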