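import Pool.Agent.Helper13.KC.BT

set_option autoImplicit false
set_option maxRecDepth 100000

namespace KC.E2

open BT

def Q1_0_r0 : Nat := 0x7ffd3ccb76010000000000007ffe11a306b200000000000080001b760db10000000000008000f0504d1f0000000000008001c529b575
def Q1_0_r1 : Nat := 0x7ffe88fea6e60000000000007ffef9cebd4e00000000000080000e88aa2900000000000080007f764fbd0000000000008000f0504d1f
def Q1_0_r2 : Nat := 0x7fffd511a3f00000000000007fffe220118e000000000000800001bd570c00000000000080000e88aa2900000000000080001b760db1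
def Q1_0_r3 : Nat := 0x8003036b5b3d00000000000080021b66c8d80000000000007fffe220118e0000000000007ffef9cebd4e0000000000007ffe11a306b2
def Q1_0_r4 : Nat := 0x80044fbd2a6d0000000000008003036b5b3d0000000000007fffd511a3f00000000000007ffe88fea6e60000000000007ffd3ccb7601

def Q1_0_0 : BT :=
  (N 2 (N 1 (L Q1_0_r0) (L Q1_0_r1)) (N 3 (L Q1_0_r2) (N 4 (L Q1_0_r3) (L Q1_0_r4))))

end KC.E2
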