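import Pool.Agent.Helper13.KC.BT

set_option autoImplicit false
set_option maxRecDepth 100000

namespace KC.E2

open BT

def Q5_7_r100 : Nat := 0x80008123d805000000000000800074179dd6000000000000800000112c7000000000000080005fb330800000000000008001242d1ea20000000000008002b21e548a0000000000007fff04f3e3d00000000000008001787c8c940000000000007fff1b393b3f00000000000080039b7eddc7000000000000800000112c7000000000000080005fb330800000000000008001242d1ea20000000000008002b21e548a0000000000007fff04f3e3d00000000000008001787c8c940000000000007fff1b393b3f00000000000080039b7eddc70000000000007fff9372ff030000000000007fffb881c4c10000000000007ffd5cf9d7b00000000000007fffb881c4c10000000000007ffd5cf9d7b00000000000008000e7439f3b0000000000007fffd5a45f7d0000000000007fff8792d4fb00000000000080001e4631c30000000000007ffe8880318c0000000000008000df5dff460000000000007ffcadb71f3d00000000000080001e4631c30000000000007ffe8880318c0000000000008000df5dff460000000000007ffcadb71f3d0000000000007fffe47a661a00000000000080000904eac80000000000007fff997eca640000000000007fff997eca64000000000000800000433e6a0000000000007fffea17bc5700000000000080000d8a8c8c00000000000080000d8a8c8c0000000000007fffce19aa5a00000000000080000019ed890000000000008001de1bb4b50000000000008001de1bb4b500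00000000008001a5c8117700000000000080003681c6130000000000007ffe223123e30000000000007ffff5c1a93a0000000000008000029e65580000000000007ffff2e5c0d90000000000008000099fcf770000000000007fffa104806f0000000000007fffffddb3b80000000000007ffdef97f4c60000000000008001f567bf62000000000000800256f37f2a0000000000008004afd45a360000000000007ffea9f489880000000000007ffe777e9e290000000000007ffe223123e30000000000007fffa104806f0000000000007fffffddb3b80000000000007ffff5c1a93a0000000000008000029e65580000000000007ffff2e5c0d90000000000008000099fcf770000000000007ffdef97f4c60000000000008001f567bf62000000000000800256f37f2a0000000000008004afd45a360000000000007ffea9f489880000000000007ffe777e9e290000000000007ffe748997f5000000000000800215e3b2a30000000000007fff0ec1c08b000000000000800215e3b2a30000000000007fff0ec1c08b000000000000800015cefa7a000000000000800014d124cf0000000000008000db8477840000000000007fff2dce47620000000000007fffb6a16e6e0000000000007ffd99f0b6180000000000007ffb0803295500000000000080005212457c0000000000008001880561ee0000000000007ffd99f0b6180000000000007ffb0803295500000000000080005212457c0000000000008001880561ee0000000000007fff09f3ab540000000000008000ee5356e30000000000008000104e2e2e0000000000008000104e2e2e000000000000800031dbadfb0000000000007fffeb14ce300000000000007ffff1b2178c0000000000007ffff1b2178c000000000000800000000b7d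

def Q5_7_1 : BT :=
  (L Q5_7_r100)

end KC.E2
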