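import Pool.Agent.Helper13.KC.E2.Q3_0_0
import Pool.Agent.Helper13.KC.E2.Q3_1_0
import Pool.Agent.Helper13.KC.E2.Q1_0_0

set_option autoImplicit false
set_option maxRecDepth 100000

namespace KC.E2

open BT

def QT3 : BT :=
  (N 95 Q3_0_0 Q3_1_0)

def QT1 : BT := Q1_0_0

end KC.E2
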