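import Pool.Agent.Helper13.KC.E2.Q5_0_0
import Pool.Agent.Helper13.KC.E2.Q5_0_1
import Pool.Agent.Helper13.KC.E2.Q5_0_2
import Pool.Agent.Helper13.KC.E2.Q5_0_3
import Pool.Agent.Helper13.KC.E2.Q5_1_0
import Pool.Agent.Helper13.KC.E2.Q5_1_1
import Pool.Agent.Helper13.KC.E2.Q5_1_2
import Pool.Agent.Helper13.KC.E2.Q5_2_0
import Pool.Agent.Helper13.KC.E2.Q5_2_1
import Pool.Agent.Helper13.KC.E2.Q5_3_0
import Pool.Agent.Helper13.KC.E2.Q5_3_1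
import Pool.Agent.Helper13.KC.E2.Q5_4_0
import Pool.Agent.Helper13.KC.E2.Q5_4_1
import Pool.Agent.Helper13.KC.E2.Q5_5_0
import Pool.Agent.Helper13.KC.E2.Q5_5_1
import Pool.Agent.Helper13.KC.E2.Q5_6_0
import Pool.Agent.Helper13.KC.E2.Q5_6_1
import Pool.Agent.Helper13.KC.E2.Q5_7_0
import Pool.Agent.Helper13.KC.E2.Q5_7_1
import Pool.Agent.Helper13.KC.E2.Q5_8_0
import Pool.Agent.Helper13.KC.E2.Q5_9_0
import Pool.Agent.Helper13.KC.E2.Q5_10_0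

set_option autoImplicit false
set_option maxRecDepth 100000

namespace KC.E2

open BT

def QT5 : BT :=
  (N 989 (N 488 (N 200 (N 100 Q5_0_0 Q5_0_1) (N 300 Q5_0_2 (N 388 Q5_0_3 Q5_1_0))) (N 750 (N 588 Q5_1_1 (N 650 Q5_1_2 Q5_2_0)) (N 841 Q5_2_1 (N 941 Q5_3_0 Q5_3_1)))) (N 1397 (N 1162 (N 1089 Q5_4_0 Q5_4_1) (N 1262 Q5_5_0 (N 1297 Q5_5_1 Q5_6_0))) (N 1522 (N 1421 Q5_6_1 (N 1521 Q5_7_0 Q5_7_1)) (N 1617 Q5_8_0 (N 1711 Q5_9_0 Q5_10_0)))))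

end KC.E2
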