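import Pool.Agent.Helper13.KC.E2.QT5
import Pool.Agent.Helper13.KC.E2.QT31
import Pool.Agent.Helper13.KC.Data5
import Pool.Agent.Helper13.KC.Data3
import Pool.Agent.Helper13.KC.Data1

set_option autoImplicit false
set_option maxRecDepth 100000

namespace KC.E2

/-- The offset. -/
def OFF : Nat := 140737488355328

/-- The tables. -/
noncomputable abbrev C5 : Tab := T5 QT5 OFF
/-- The tables. -/
noncomputable abbrev C3 : Tab := T3 QT3 OFF
/-- The tables. -/
noncomputable abbrev C1 : Tab := T1 QT1 OFF

end KC.E2
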